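import Pool.Agent.H.MP_2bcfbf_mp.Defs

noncomputable section

namespace Pool.Agent.H.MP_2bcfbf_mp

variable {N : ℕ}

@[simp] lemma word_nil : word ([] : List (Fin N)) = 1 := rfl
@[simp] lemma word_cons (a : Fin N) (l) : word (a :: l) = xx a * word l := by simp [word]
lemma word_append (l m : List (Fin N)) : word (l ++ m) = word l * word m := by simp [word]

lemma basis_eq (w : FreeMonoid (Fin N)) :
    FreeAlgebra.basisFreeMonoid ℂ (Fin N) w = word w.toList := by
  simp [FreeAlgebra.basisFreeMonoid, FreeAlgebra.equivMonoidAlgebraFreeMonoid, word,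
    FreeMonoid.lift_apply]
  rfl

lemma ind {P : FA N → Prop} (hw : ∀ l, P (word l)) (h0 : P 0) (ha : ∀ a b, P a → P b → P (a + b))
    (hs : ∀ (c : ℂ) a, P a → P (c • a)) (f : FA N) : P f := by
  have : f ∈ Submodule.span ℂ (Set.range (FreeAlgebra.basisFreeMonoid ℂ (Fin N))) := by
    rw [Module.Basis.span_eq]; trivial
  induction this using Submodule.span_induction with
  | mem x hx => obtain ⟨w, rfl⟩ := hx; rw [basis_eq]; exact hw _
  | zero => exact h0
  | add x y _ _ hx hy => exact ha _ _ hx hy
  | smul c x _ hx => exact hs _ _ hx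

def dW (k : Fin N) : List (Fin N) → FA N →ₗ[ℂ] FA N
  | [] => 0
  | a :: l => (if a = k then LinearMap.mulLeft ℂ (word l) else 0) +
      (dW k l).comp (LinearMap.mulRight ℂ (xx a))

def DD (k : Fin N) : FA N →ₗ[ℂ] FA N →ₗ[ℂ] FA N :=
  (FreeAlgebra.basisFreeMonoid ℂ (Fin N)).constr ℂ fun w => dW k w.toList

lemma DD_word (k : Fin N) (l) : DD k (word l) = dW k l := by
  have := basis_eq (FreeMonoid.ofList l)
  rw [FreeMonoid.toList_ofList] at this
  rw [← this, DD, Module.Basis.constr_basis, FreeMonoid.toList_ofList]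

lemma dW_cons (k a : Fin N) (l) (t : FA N) :
    dW k (a :: l) t = (if a = k then word l * t else 0) + dW k l (t * xx a) := by
  simp only [dW, LinearMap.add_apply, LinearMap.comp_apply, LinearMap.mulRight_apply]
  split_ifs <;> simp

lemma dW_eq (k : Fin N) (l : List (Fin N)) (t : FA N) : dW k l t =
    ∑ p : Fin l.length, if l[p] = k then word (l.drop (p + 1)) * t * word (l.take p) else 0 := by
  induction l generalizing t with
  | nil => simp [dW]
  | cons a l ih =>
    rw [dW_cons, ih]
    simp only [List.length_cons, Fin.sum_univ_succ]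
    simp [mul_assoc]

lemma grad_eq (k : Fin N) (f : FA N) : grad k f = DD k f 1 := by
  induction f using ind with
  | hw l =>
    have := basis_eq (FreeMonoid.ofList l)
    rw [FreeMonoid.toList_ofList] at this
    rw [DD_word, dW_eq, ← this, grad, Module.Basis.constr_basis]
    simp only [word_append, mul_one]
    rfl
  | h0 => simp
  | ha a b ha hb => simp [ha, hb]
  | hs c a ha => simp [ha]

lemma DD_mul_word (k : Fin N) (l m : List (Fin N)) (t : FA N) :
    dW k (l ++ m) t = dW k l (word m * t) + dW k m (t * word l) := by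
  induction l generalizing t with
  | nil => simp [dW]
  | cons a l ih =>
    rw [List.cons_append, dW_cons, dW_cons, ih, word_append]
    simp only [mul_assoc, word_cons, add_assoc]

lemma DD_mul (k : Fin N) (f g t : FA N) : DD k (f * g) t = DD k f (g * t) + DD k g (t * f) := by
  induction f using ind with
  | hw l =>
    induction g using ind with
    | hw m => rw [← word_append, DD_word, DD_word, DD_word, DD_mul_word]
    | h0 => simp
    | ha a b ha hb => simp only [mul_add, add_mul, map_add, LinearMap.add_apply, ha, hb]; abel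
    | hs c a ha => simp [ha]
  | h0 => simp
  | ha a b ha hb => simp only [mul_add, add_mul, map_add, LinearMap.add_apply, ha, hb]; abel
  | hs c a ha => simp [ha]

lemma DD_xx (k a : Fin N) (t : FA N) : DD k (xx a) t = if a = k then t else 0 := by
  have := DD_word k [a]
  simp only [word_cons, word_nil, mul_one] at this
  rw [this, dW_cons]; simp [dW]

lemma DD_one (k : Fin N) : DD k (1 : FA N) = 0 := DD_word k []

def comm (N : ℕ) : Submodule ℂ (FA N) := Submodule.span ℂ {c : FA N | ∃ p q, c = p * q - q * p}

def tr : FA N →ₗ[ℂ] (FA N ⧸ comm N) := (comm N).mkQ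

lemma sim_iff (a : FA N) : Sim a 0 ↔ tr a = 0 := by
  rw [Sim, sub_zero]
  exact (Submodule.Quotient.mk_eq_zero _).symm

lemma tr_comm (a b : FA N) : tr (a * b) = tr (b * a) := by
  rw [← sub_eq_zero, ← map_sub]
  exact (Submodule.Quotient.mk_eq_zero _).mpr (Submodule.subset_span ⟨a, b, rfl⟩)

lemma of_tr {M : Type*} [AddCommGroup M] [Module ℂ M] (φ : FA N →ₗ[ℂ] M)
    (h : ∀ a b, φ (a * b) = φ (b * a)) {a : FA N} (ha : tr a = 0) : φ a = 0 := by
  have : comm N ≤ LinearMap.ker φ := Submodule.span_le.mpr (by
    rintro _ ⟨p, q, rfl⟩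
    simp [h p q])
  exact this ((Submodule.Quotient.mk_eq_zero _).mp ha)

def derH (V : Fin N → FA N) : FA N →ₐ[ℂ] TrivSqZeroExt (FA N) (FA N) :=
  FreeAlgebra.lift ℂ fun k => TrivSqZeroExt.inl (xx k) + TrivSqZeroExt.inr (V k)

lemma derH_fst (V : Fin N → FA N) (f : FA N) : (derH V f).fst = f := by
  have : (TrivSqZeroExt.fstHom ℂ (FA N) (FA N)).comp (derH V) = AlgHom.id ℂ _ := by
    ext k; simp [derH, xx]
  exact AlgHom.congr_fun this f

def der (V : Fin N → FA N) : FA N →ₗ[ℂ] FA N where
  toFun f := (derH V f).snd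
  map_add' a b := by simp
  map_smul' c a := by simp

lemma der_mul (V : Fin N → FA N) (f g : FA N) : der V (f * g) = der V f * g + f * der V g := by
  simp [der, derH_fst, add_comm]

lemma der_xx (V : Fin N → FA N) (k) : der V (xx k) = V k := by simp [der, derH, xx]

lemma der_alg (V : Fin N → FA N) (c : ℂ) : der V (algebraMap ℂ _ c) = 0 := by
  simp [der, TrivSqZeroExt.algebraMap_eq_inl']

lemma tr_der (V : Fin N → FA N) (f t : FA N) : tr (der V f * t) = ∑ k, tr (V k * DD k f t) := by
  induction f using FreeAlgebra.induction generalizing t with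
  | grade0 c => rw [der_alg]; simp [Algebra.algebraMap_eq_smul_one, DD_one]
  | grade1 a =>
    change tr (der V (xx a) * t) = ∑ k, tr (V k * DD k (xx a) t)
    simp [der_xx, DD_xx, apply_ite]
  | mul a b ha hb =>
    simp only [der_mul, DD_mul, mul_add, add_mul, map_add, Finset.sum_add_distrib, ← ha, ← hb]
    rw [mul_assoc a, tr_comm a, mul_assoc, mul_assoc]
  | add a b ha hb => simp [add_mul, mul_add, ha, hb, Finset.sum_add_distrib]

lemma tr_der1 (V : Fin N → FA N) (f : FA N) : tr (der V f) = ∑ k, tr (V k * grad k f) := by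
  simpa [grad_eq] using tr_der V f 1

lemma der_der (U W : Fin N → FA N) (f : FA N) :
    der U (der W f) - der W (der U f) = der (fun k => der U (W k) - der W (U k)) f := by
  induction f using FreeAlgebra.induction with
  | grade0 c => simp [der_alg]
  | grade1 a =>
    change der U (der W (xx a)) - der W (der U (xx a)) = der _ (xx a)
    simp [der_xx]
  | mul a b ha hb =>
    simp only [der_mul, map_add, ← ha, ← hb, sub_mul, mul_sub]; abel
  | add a b ha hb => simp only [map_add, ← ha, ← hb]; abel

lemma tr_der_congr (U : Fin N → FA N) {a b : FA N} (h : tr a = tr b) :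
    tr (der U a) = tr (der U b) := by
  rw [← sub_eq_zero, ← map_sub, ← map_sub]
  refine of_tr (tr.comp (der U)) (fun p q => ?_) (by rw [map_sub, h, sub_self])
  simp only [LinearMap.comp_apply, der_mul, map_add]
  rw [tr_comm (der U p), tr_comm p, add_comm]

lemma hess_symm (U W : Fin N → FA N) (g : FA N) :
    ∑ i, tr (W i * der U (grad i g)) = ∑ i, tr (U i * der W (grad i g)) := by
  have key : ∀ U W : Fin N → FA N, tr (der U (der W g)) =
      ∑ i, tr (der U (W i) * grad i g) + ∑ i, tr (W i * der U (grad i g)) := by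
    intro U W
    rw [tr_der_congr U (b := ∑ i, W i * grad i g) (by rw [tr_der1, map_sum])]
    simp only [map_sum, der_mul, map_add, Finset.sum_add_distrib]
  have h := congrArg tr (der_der U W g)
  rw [map_sub, key U W, key W U, tr_der1] at h
  simp only [sub_mul, map_sub, Finset.sum_sub_distrib] at h
  rw [← sub_eq_zero] at h ⊢
  rw [← h]; abel

lemma der_inner (z f : FA N) : der (fun k => z * xx k - xx k * z) f = z * f - f * z := by
  induction f using FreeAlgebra.induction with
  | grade0 c => simp [der_alg, Algebra.commutes]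
  | grade1 a => exact der_xx _ a
  | mul a b ha hb => simp only [der_mul, ha, hb, sub_mul, mul_sub, mul_assoc]; abel
  | add a b ha hb => simp only [map_add, ha, hb, add_mul, mul_add]; abel

lemma euler (z f : FA N) :
    ∑ k, tr (z * (xx k * grad k f)) = ∑ k, tr (z * (grad k f * xx k)) := by
  have h := tr_der1 (fun k => z * xx k - xx k * z) f
  rw [der_inner, map_sub, tr_comm z f, sub_self] at h
  simp only [sub_mul, map_sub, Finset.sum_sub_distrib] at h
  rw [eq_comm, sub_eq_zero] at h
  simp only [← mul_assoc]
  rw [h]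
  exact Finset.sum_congr rfl fun k _ => by rw [mul_assoc (xx k), tr_comm (xx k)]

end Pool.Agent.H.MP_2bcfbf_mp
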