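import Pool.Agent.H.MP_2bcfbf_mp.A

noncomputable section

namespace Pool.Agent.H.MP_2bcfbf_mp

variable {N : ℕ}

abbrev C3 (N : ℕ) := Fin N → Fin N → Fin N → ℂ
abbrev C4 (N : ℕ) := Fin N → Fin N → Fin N → Fin N → ℂ

def Th (b b' : C3 N) (G : Fin N → FA N) (i : Fin N) : FA N :=
  ∑ j, ∑ k, (b i j k • (G j * xx k) + b' i j k • (xx k * G j))

def bil (b b' : C3 N) (F G : Fin N → FA N) : FA N := ∑ i, F i * Th b b' G i

def gr (f : FA N) : Fin N → FA N := fun i => grad i f

lemma br_eq (b b' : C3 N) (f g : FA N) : br b b' f g = bil b b' (gr f) (gr g) := by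
  simp only [br, bil, Th, gr, Finset.mul_sum]

lemma tr_bil (b b' : C3 N) (F G : Fin N → FA N) : tr (bil b b' F G) =
    ∑ i, ∑ j, ∑ k, (b i j k • tr (F i * G j * xx k) + b' i j k • tr (G j * F i * xx k)) := by
  simp only [bil, Th, Finset.mul_sum, map_sum, mul_add, map_add, mul_smul_comm, map_smul]
  refine Finset.sum_congr rfl fun i _ => Finset.sum_congr rfl fun j _ =>
    Finset.sum_congr rfl fun k _ => ?_
  rw [← mul_assoc, ← mul_assoc (F i), tr_comm (F i * xx k), mul_assoc (G j)]

def cb (c : C3 N) : C3 N := fun i j k => - c j i k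

lemma bil_skew (c : C3 N) (F G : Fin N → FA N) :
    tr (bil c (cb c) F G) = - tr (bil c (cb c) G F) := by
  rw [tr_bil, tr_bil, Finset.sum_comm]
  simp only [← Finset.sum_neg_distrib, cb, neg_smul]
  refine Finset.sum_congr rfl fun i _ => Finset.sum_congr rfl fun j _ =>
    Finset.sum_congr rfl fun k _ => by abel

lemma der_bil (b b' : C3 N) (U F G : Fin N → FA N) : der U (bil b b' F G) =
    bil b b' (fun i => der U (F i)) G + bil b b' F (fun i => der U (G i))
      + ∑ i, ∑ j, ∑ k, (b i j k • (F i * G j * U k) + b' i j k • (F i * U k * G j)) := by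
  simp only [bil, Th, Finset.mul_sum, map_sum, mul_add, map_add, mul_smul_comm, map_smul, der_mul,
    der_xx, ← Finset.sum_add_distrib, smul_add, mul_assoc]
  refine Finset.sum_congr rfl fun i _ => Finset.sum_congr rfl fun j _ =>
    Finset.sum_congr rfl fun k _ => by abel

def T4 (A : C4 N) (F G H : Fin N → FA N) : FA N :=
  ∑ i, ∑ j, ∑ l, ∑ m, A i j l m • (F i * G j * H l * xx m)

def PP (c : C3 N) : C4 N := fun i j l m => ∑ k, c i j k * c k l m
def QQ (c : C3 N) : C4 N := fun i j l m => ∑ k, c j l k * c i k m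
def AA (c : C3 N) : C4 N := fun i j l m => ∑ k, (c i j k * c k l m - c j l k * c i k m)

lemma T4_AA (c : C3 N) (F G H : Fin N → FA N) :
    T4 (AA c) F G H = T4 (PP c) F G H - T4 (QQ c) F G H := by
  simp only [T4, AA, PP, QQ, Finset.sum_sub_distrib, sub_smul]

lemma cU (c : C3 N) (F : Fin N → FA N) (i j : Fin N) : ∑ k, c i j k • Th c (cb c) F k =
    ∑ l, ∑ m, (PP c i j l m • (F l * xx m) - QQ c l i j m • (xx m * F l)) := by
  simp only [Th, Finset.smul_sum, PP, QQ, Finset.sum_smul, ← Finset.sum_sub_distrib, cb]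
  rw [Finset.sum_comm]
  refine Finset.sum_congr rfl fun l _ => ?_
  rw [Finset.sum_comm]
  refine Finset.sum_congr rfl fun m _ => Finset.sum_congr rfl fun k _ => ?_
  simp only [smul_add, smul_smul, smul_neg, neg_smul, sub_eq_add_neg]

lemma s3 {M : Type*} [AddCommMonoid M] (f : Fin N → Fin N → Fin N → M) :
    ∑ i, ∑ j, ∑ l, f i j l = ∑ l, ∑ i, ∑ j, f i j l := by
  rw [Finset.sum_congr rfl fun i _ => Finset.sum_comm, Finset.sum_comm]

lemma tr_rem (c : C3 N) (F G H : Fin N → FA N) :
    tr (∑ i, ∑ j, ∑ k, (c i j k • (G i * H j * Th c (cb c) F k)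
      + cb c i j k • (G i * Th c (cb c) F k * H j))) =
    tr (T4 (PP c) G H F) - tr (T4 (QQ c) F G H) - tr (T4 (PP c) H G F) + tr (T4 (QQ c) F H G) := by
  have e1 : ∀ G H : Fin N → FA N, ∑ i, ∑ j, ∑ k, c i j k • tr (G i * H j * Th c (cb c) F k) =
      tr (T4 (PP c) G H F) - tr (T4 (QQ c) F G H) := by
    intro G H
    have : ∀ i j, ∑ k, c i j k • tr (G i * H j * Th c (cb c) F k) =
        ∑ l, ∑ m, PP c i j l m • tr (G i * H j * F l * xx m)
          - ∑ l, ∑ m, QQ c l i j m • tr (F l * G i * H j * xx m) := by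
      intro i j
      simp only [← map_smul, ← mul_smul_comm, ← map_sum, ← Finset.mul_sum, cU]
      simp only [Finset.mul_sum, map_sum, mul_sub, map_sub, mul_smul_comm, map_smul,
        Finset.sum_sub_distrib]
      congr 1
      · simp only [mul_assoc]
      · refine Finset.sum_congr rfl fun l _ => Finset.sum_congr rfl fun m _ => ?_
        rw [← mul_assoc, tr_comm _ (F l)]; simp only [mul_assoc]
    simp only [this, Finset.sum_sub_distrib, T4, map_sum, map_smul]
    congr 1
    exact s3 _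
  simp only [map_sum, map_add, map_smul, Finset.sum_add_distrib, e1, cb, neg_smul,
    Finset.sum_neg_distrib, map_neg]
  have e2 : ∑ i, ∑ j, ∑ k, c j i k • tr (G i * Th c (cb c) F k * H j) =
      ∑ i, ∑ j, ∑ k, c i j k • tr (H i * G j * Th c (cb c) F k) := by
    rw [Finset.sum_comm]
    refine Finset.sum_congr rfl fun i _ => Finset.sum_congr rfl fun j _ =>
      Finset.sum_congr rfl fun k _ => ?_
    rw [tr_comm _ (H i), mul_assoc]
  rw [e2, e1]; abel

def JJ (A : C4 N) (F G H : Fin N → FA N) : FA N :=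
  T4 A F G H + T4 A G H F + T4 A H F G - T4 A H G F - T4 A G F H - T4 A F H G

lemma tr_br_der (b b' : C3 N) (F f : FA N) :
    tr (br b b' F f) = tr (der (Th b b' (gr f)) F) := by
  rw [br_eq, tr_der1, bil, map_sum]
  exact Finset.sum_congr rfl fun i _ => tr_comm _ _

theorem jac_eq (c : C3 N) (f g h : FA N) :
    tr (br c (cb c) f (br c (cb c) g h) + br c (cb c) g (br c (cb c) h f)
      + br c (cb c) h (br c (cb c) f g)) = - tr (JJ (AA c) (gr f) (gr g) (gr h)) := by
  have key : ∀ f g h : FA N, tr (br c (cb c) f (br c (cb c) g h)) =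
      - (∑ i, tr (Th c (cb c) (gr h) i * der (Th c (cb c) (gr f)) (grad i g))
        - ∑ i, tr (Th c (cb c) (gr g) i * der (Th c (cb c) (gr f)) (grad i h))
        + (tr (T4 (PP c) (gr g) (gr h) (gr f)) - tr (T4 (QQ c) (gr f) (gr g) (gr h))
          - tr (T4 (PP c) (gr h) (gr g) (gr f)) + tr (T4 (QQ c) (gr f) (gr h) (gr g)))) := by
    intro f g h
    rw [br_eq, bil_skew, ← br_eq, tr_br_der, br_eq, der_bil, map_add, map_add, tr_rem,
      bil_skew c (gr g)]
    simp only [bil, map_sum, gr, tr_comm (der _ _), sub_eq_add_neg]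
  simp only [map_add, key, JJ, map_sub, T4_AA]
  rw [hess_symm (Th c (cb c) (gr f)) (Th c (cb c) (gr h)) g,
    hess_symm (Th c (cb c) (gr f)) (Th c (cb c) (gr g)) h,
    hess_symm (Th c (cb c) (gr g)) (Th c (cb c) (gr h)) f]
  abel

lemma JJ_psi (ψ : Fin N → Fin N → ℂ) {A : C4 N}
    (hA : ∀ i j l m, A i j l m = (if i = m then ψ j l else 0) - (if l = m then ψ i j else 0))
    (f g h : FA N) : tr (JJ A (gr f) (gr g) (gr h)) = 0 := by
  set S : FA N → FA N → FA N := fun f g => ∑ i, ∑ j, ψ i j • (grad i f * grad j g) with hS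
  have key : ∀ f g h : FA N, tr (T4 A (gr f) (gr g) (gr h)) =
      ∑ k, tr (S g h * (xx k * grad k f)) - ∑ k, tr (S f g * (grad k h * xx k)) := by
    intro f g h
    simp only [T4, hA, sub_smul, Finset.sum_sub_distrib, ite_smul, zero_smul, Finset.sum_ite_eq,
      Finset.mem_univ, if_true, map_sub, map_sum, map_smul, hS, Finset.sum_mul, smul_mul_assoc,
      gr]
    congr 1
    · refine Finset.sum_congr rfl fun i _ => Finset.sum_congr rfl fun j _ =>
        Finset.sum_congr rfl fun l _ => ?_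
      rw [mul_assoc (grad i f), mul_assoc (grad i f), tr_comm (grad i f)]
      simp only [mul_assoc]
    · rw [s3]; simp only [mul_assoc]
  simp only [JJ, map_add, map_sub, key, euler]
  abel

lemma tr_br_shift (b b' : C3 N) (lam : Fin N → ℂ) (f g : FA N) :
    tr (br (fun i j k => b i j k + if i = k then lam j else 0)
      (fun i j k => b' i j k - if i = k then lam j else 0) f g) = tr (br b b' f g) := by
  simp only [br_eq, tr_bil, add_smul, sub_smul, Finset.sum_add_distrib, Finset.sum_sub_distrib,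
    ite_smul, zero_smul, Finset.sum_ite_eq, Finset.mem_univ, if_true]
  have h := euler (∑ j, lam j • grad j g) f
  simp only [Finset.sum_mul, smul_mul_assoc, map_sum, map_smul] at h
  have e : ∑ i, ∑ j, lam j • tr (gr f i * gr g j * xx i) =
      ∑ i, ∑ j, lam j • tr (gr g j * gr f i * xx i) := by
    simp only [gr, mul_assoc]
    rw [← h]
    refine Finset.sum_congr rfl fun i _ => Finset.sum_congr rfl fun j _ => ?_
    rw [tr_comm (grad i f), mul_assoc]
  rw [e]; abel

lemma tr_br_congr (b b' : C3 N) (f : FA N) {g g' : FA N} (h : tr g = tr g') :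
    tr (br b b' f g) = tr (br b b' f g') := by
  have key : ∀ g, tr (br b b' f g) = tr (der (fun j => ∑ i, ∑ k,
      (b i j k • (xx k * grad i f) + b' i j k • (grad i f * xx k))) g) := by
    intro g
    rw [br_eq, tr_bil, tr_der1, Finset.sum_comm]
    simp only [Finset.sum_mul, map_sum, add_mul, map_add, smul_mul_assoc, map_smul, gr]
    refine Finset.sum_congr rfl fun j _ => Finset.sum_congr rfl fun i _ =>
      Finset.sum_congr rfl fun k _ => ?_
    rw [tr_comm (grad i f * grad j g) (xx k), tr_comm (grad i f * xx k) (grad j g)]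
    simp only [mul_assoc]
  rw [key, key, tr_der_congr _ h]

lemma isNAP_congr {b b' c c' : C3 N} (h : ∀ f g, tr (br c c' f g) = tr (br b b' f g)) :
    IsNAP c c' ↔ IsNAP b b' := by
  have h2 : ∀ f g k, tr (br c c' f (br c c' g k)) = tr (br b b' f (br b b' g k)) :=
    fun f g k => by rw [h, tr_br_congr b b' f (h g k)]
  simp only [IsNAP, sim_iff, map_add, h2]
  simp only [h]

lemma isNAP_normal (c : C3 N) :
    IsNAP c (cb c) ↔ ∀ f g h, tr (JJ (AA c) (gr f) (gr g) (gr h)) = 0 := by
  simp only [IsNAP, sim_iff, jac_eq, neg_eq_zero]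
  refine and_iff_right fun f g => ?_
  rw [map_add, br_eq, bil_skew, br_eq]; simp

end Pool.Agent.H.MP_2bcfbf_mp
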