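import Pool.Agent.H.MP_2bcfbf_mp.B

open Matrix

noncomputable section

namespace Pool.Agent.H.MP_2bcfbf_mp

variable {N : ℕ}

abbrev M3 := Matrix (Fin 3) (Fin 3) ℂ

def rep (M : Fin N → M3) : FA N →ₐ[ℂ] M3 := FreeAlgebra.lift ℂ M

lemma rep_xx (M : Fin N → M3) (k) : rep M (xx k) = M k := by simp [rep, xx]

lemma trace_rep (M : Fin N → M3) {a : FA N} (h : tr a = 0) : (rep M a).trace = 0 :=
  of_tr ((Matrix.traceLinearMap (Fin 3) ℂ ℂ).comp (rep M).toLinearMap)
    (fun a b => by simp [Matrix.trace_mul_comm (rep M a)]) h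

def lin (u : Fin N → ℂ) : FA N := ∑ i, u i • xx i

lemma DD_lin (k : Fin N) (u : Fin N → ℂ) (t : FA N) : DD k (lin u) t = u k • t := by
  simp [lin, DD_xx, LinearMap.sum_apply]

variable {r : ℕ}

def GW {R : Type*} [Ring R] (m : Fin r → R) (a : Fin r) : List (Fin r) → R → R
  | [], _ => 0
  | b :: l, t => (if b = a then (l.map m).prod * t else 0) + GW m a l (t * m b)

lemma DD_wd (e : Fin r → Fin N → ℂ) (k : Fin N) (l : List (Fin r)) (t : FA N) :
    DD k (l.map fun a => lin (e a)).prod t = ∑ a, e a k • GW (fun a => lin (e a)) a l t := by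
  induction l generalizing t with
  | nil => simp [DD_one, GW]
  | cons b l ih =>
    simp only [List.map_cons, List.prod_cons, DD_mul, DD_lin, ih, GW, smul_add,
      Finset.sum_add_distrib, smul_ite, smul_zero, Finset.sum_ite_eq, Finset.mem_univ, if_true]

lemma map_GW {R S : Type*} [Ring R] [Ring S] [Algebra ℂ R] [Algebra ℂ S] (φ : R →ₐ[ℂ] S)
    (m : Fin r → R) (a : Fin r) (l : List (Fin r)) (t : R) :
    φ (GW m a l t) = GW (fun a => φ (m a)) a l (φ t) := by
  induction l generalizing t with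
  | nil => simp [GW]
  | cons b l ih =>
    simp only [GW, map_add, ih, map_mul, apply_ite φ, map_zero, map_list_prod, List.map_map]
    rfl

lemma rep_lin (α : Fin r → Fin N → ℂ) (P : Fin r → M3) (w : Fin N → ℂ) :
    rep (fun i => ∑ s, α s i • P s) (lin w) = ∑ s, (α s ⬝ᵥ w) • P s := by
  simp only [lin, map_sum, map_smul, rep_xx, Finset.smul_sum, smul_smul, dotProduct,
    Finset.sum_smul]
  rw [Finset.sum_comm]
  simp only [mul_comm]

def a4 (A : C4 N) (α u v w : Fin N → ℂ) : ℂ :=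
  ∑ i, ∑ j, ∑ l, ∑ m, u i * v j * w l * A i j l m * α m

lemma T4_e (A : C4 N) (e : Fin r → Fin N → ℂ) (F G H : Fin r → FA N) :
    T4 A (fun i => ∑ a, e a i • F a) (fun i => ∑ a, e a i • G a) (fun i => ∑ a, e a i • H a) =
      ∑ a, ∑ b, ∑ c, F a * G b * H c *
        lin (fun m => ∑ i, ∑ j, ∑ l, e a i * e b j * e c l * A i j l m) := by
  have h1 : ∀ (u v w : Fin N → ℂ) (F G H : FA N),
      T4 A (fun i => u i • F) (fun i => v i • G) (fun i => w i • H) =
      F * G * H * lin (fun m => ∑ i, ∑ j, ∑ l, u i * v j * w l * A i j l m) := by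
    intro u v w F G H
    simp only [T4, lin, Finset.sum_smul, Finset.mul_sum, mul_smul_comm, smul_mul_assoc, smul_smul]
    rw [Finset.sum_congr rfl fun i _ => s3 _, Finset.sum_comm]
    refine Finset.sum_congr rfl fun m _ => Finset.sum_congr rfl fun i _ =>
      Finset.sum_congr rfl fun j _ => Finset.sum_congr rfl fun l _ => ?_
    congr 1; ring
  have s1 : ∀ (F : Fin r → Fin N → FA N) G H,
      T4 A (fun i => ∑ a, F a i) G H = ∑ a, T4 A (F a) G H := by
    intro F G H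
    simp only [T4, Finset.sum_mul, Finset.smul_sum]
    rw [Finset.sum_congr rfl fun i _ => Finset.sum_congr rfl fun j _ =>
      Finset.sum_congr rfl fun l _ => Finset.sum_comm,
      Finset.sum_congr rfl fun i _ => Finset.sum_congr rfl fun j _ => Finset.sum_comm,
      Finset.sum_congr rfl fun i _ => Finset.sum_comm, Finset.sum_comm]
  have s2 : ∀ F (G : Fin r → Fin N → FA N) H,
      T4 A F (fun i => ∑ a, G a i) H = ∑ a, T4 A F (G a) H := by
    intro F G H
    simp only [T4, Finset.sum_mul, Finset.mul_sum, Finset.smul_sum]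
    rw [Finset.sum_congr rfl fun i _ => Finset.sum_congr rfl fun j _ =>
      Finset.sum_congr rfl fun l _ => Finset.sum_comm,
      Finset.sum_congr rfl fun i _ => Finset.sum_congr rfl fun j _ => Finset.sum_comm,
      Finset.sum_congr rfl fun i _ => Finset.sum_comm, Finset.sum_comm]
  have s3' : ∀ F G (H : Fin r → Fin N → FA N),
      T4 A F G (fun i => ∑ a, H a i) = ∑ a, T4 A F G (H a) := by
    intro F G H
    simp only [T4, Finset.sum_mul, Finset.mul_sum, Finset.smul_sum]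
    rw [Finset.sum_congr rfl fun i _ => Finset.sum_congr rfl fun j _ =>
      Finset.sum_congr rfl fun l _ => Finset.sum_comm,
      Finset.sum_congr rfl fun i _ => Finset.sum_congr rfl fun j _ => Finset.sum_comm,
      Finset.sum_congr rfl fun i _ => Finset.sum_comm, Finset.sum_comm]
  simp only [s1, s2, s3', h1]

lemma gr_wd (e : Fin r → Fin N → ℂ) (l : List (Fin r)) :
    gr (l.map fun a => lin (e a)).prod = fun i => ∑ a, e a i • GW (fun a => lin (e a)) a l 1 := by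
  ext i; rw [gr, grad_eq, DD_wd]

def TM (P : Fin r → M3) (n : Fin r → Fin r → Fin r → Fin r → ℂ) (f g h : List (Fin r)) : ℂ :=
  ∑ a, ∑ b, ∑ c, ∑ s, n s a b c * (GW P a f 1 * GW P b g 1 * GW P c h 1 * P s).trace

lemma rep_e (α e : Fin r → Fin N → ℂ) (P : Fin r → M3)
    (hd : ∀ s a, α s ⬝ᵥ e a = if s = a then 1 else 0) (a : Fin r) :
    rep (fun i => ∑ s, α s i • P s) (lin (e a)) = P a := by
  simp [rep_lin, hd]

lemma trace_T4 (A : C4 N) (α e : Fin r → Fin N → ℂ) (P : Fin r → M3)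
    (hd : ∀ s a, α s ⬝ᵥ e a = if s = a then 1 else 0) (f g h : List (Fin r)) :
    (rep (fun i => ∑ s, α s i • P s) (T4 A (gr (f.map fun a => lin (e a)).prod)
      (gr (g.map fun a => lin (e a)).prod) (gr (h.map fun a => lin (e a)).prod))).trace =
      TM P (fun s a b c => a4 A (α s) (e a) (e b) (e c)) f g h := by
  simp only [gr_wd, T4_e, map_sum, map_mul, map_GW, rep_e α e P hd, rep_lin, map_one,
    Finset.mul_sum, mul_smul_comm, Matrix.trace_sum, Matrix.trace_smul, smul_eq_mul, TM]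
  refine Finset.sum_congr rfl fun a _ => Finset.sum_congr rfl fun b _ =>
    Finset.sum_congr rfl fun c _ => Finset.sum_congr rfl fun s _ => ?_
  congr 1
  simp only [a4, dotProduct, Finset.mul_sum]
  symm
  rw [Finset.sum_congr rfl fun i _ => s3 _, Finset.sum_comm]
  exact Finset.sum_congr rfl fun m _ => Finset.sum_congr rfl fun i _ =>
    Finset.sum_congr rfl fun j _ => Finset.sum_congr rfl fun l _ => by ring

lemma jtest {A : C4 N} (hJ : ∀ f g h, tr (JJ A (gr f) (gr g) (gr h)) = 0)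
    (α e : Fin r → Fin N → ℂ) (P : Fin r → M3)
    (hd : ∀ s a, α s ⬝ᵥ e a = if s = a then 1 else 0) (f g h : List (Fin r)) :
    let n := fun s a b c => a4 A (α s) (e a) (e b) (e c)
    TM P n f g h + TM P n g h f + TM P n h f g - TM P n h g f - TM P n g f h - TM P n f h g = 0 := by
  have := trace_rep (fun i => ∑ s, α s i • P s) (hJ (f.map fun a => lin (e a)).prod
    (g.map fun a => lin (e a)).prod (h.map fun a => lin (e a)).prod)
  simp only [JJ, map_add, map_sub, Matrix.trace_add, Matrix.trace_sub, trace_T4 A α e P hd] at this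
  exact this

def PQ : Fin 2 → M3 := ![!![0, 0, 0; 0, 0, 1; 0, 1, 0], !![0, 0, 1; 1, 0, 0; 0, 0, 1]]

def PQz : Fin 2 → Matrix (Fin 3) (Fin 3) ℤ :=
  ![!![0, 0, 0; 0, 0, 1; 0, 1, 0], !![0, 0, 1; 1, 0, 0; 0, 0, 1]]

def tz (P : Fin r → Matrix (Fin 3) (Fin 3) ℤ) (f g h : List (Fin r)) (a b c s : Fin r) : ℤ :=
  (GW P a f 1 * GW P b g 1 * GW P c h 1 * P s).trace

lemma map_GW' {R S : Type*} [Ring R] [Ring S] (φ : R →+* S)
    (m : Fin r → R) (a : Fin r) (l : List (Fin r)) (t : R) :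
    φ (GW m a l t) = GW (fun a => φ (m a)) a l (φ t) := by
  induction l generalizing t with
  | nil => simp [GW]
  | cons b l ih =>
    simp only [GW, map_add, ih, map_mul, apply_ite φ, map_zero, map_list_prod, List.map_map]
    rfl

def cz : Matrix (Fin 3) (Fin 3) ℤ →+* M3 := (Int.castRingHom ℂ).mapMatrix

lemma TM_z (P : Fin r → Matrix (Fin 3) (Fin 3) ℤ) (n) (f g h : List (Fin r)) :
    TM (fun a => cz (P a)) n f g h = ∑ a, ∑ b, ∑ c, ∑ s, n s a b c * (tz P f g h a b c s : ℂ) := by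
  refine Finset.sum_congr rfl fun a _ => Finset.sum_congr rfl fun b _ =>
    Finset.sum_congr rfl fun c _ => Finset.sum_congr rfl fun s _ => ?_
  congr 1
  have e : ∀ a l, GW (fun a => cz (P a)) a l 1 = cz (GW P a l 1) := by
    intro a l; rw [map_GW', map_one]
  rw [e, e, e, ← map_mul, ← map_mul, ← map_mul, tz]
  simp [cz, Matrix.trace]

def jz (P : Fin r → Matrix (Fin 3) (Fin 3) ℤ) (f g h : List (Fin r)) (a b c s : Fin r) : ℤ :=
  tz P f g h a b c s + tz P g h f a b c s + tz P h f g a b c s - tz P h g f a b c s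
    - tz P g f h a b c s - tz P f h g a b c s

lemma jtestz {A : C4 N} (hJ : ∀ f g h, tr (JJ A (gr f) (gr g) (gr h)) = 0)
    (α e : Fin r → Fin N → ℂ) (P : Fin r → Matrix (Fin 3) (Fin 3) ℤ)
    (hd : ∀ s a, α s ⬝ᵥ e a = if s = a then 1 else 0) (f g h : List (Fin r))
    (z : Fin r → Fin r → Fin r → Fin r → ℤ) (hz : ∀ s a b c, jz P f g h a b c s = z s a b c) :
    ∑ a, ∑ b, ∑ c, ∑ s, a4 A (α s) (e a) (e b) (e c) * (z s a b c : ℂ) = 0 := by
  have := jtest hJ α e (fun a => cz (P a)) hd f g h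
  simp only [TM_z] at this
  rw [← this]
  simp only [← hz, jz, Int.cast_add, Int.cast_sub, mul_add, mul_sub, Finset.sum_add_distrib,
    Finset.sum_sub_distrib]

def HH (A : C4 N) : Prop := ∀ u v α β : Fin N → ℂ, α ⬝ᵥ u = 1 → α ⬝ᵥ v = 0 → β ⬝ᵥ u = 0 →
  β ⬝ᵥ v = 1 → a4 A β u u u = 0 ∧ a4 A α u u u = 0 ∧ a4 A β u v u = 0 ∧
    a4 A β u u v + a4 A β v u u = 0 ∧ a4 A α u u v + a4 A β u v v = 0 ∧
    a4 A α v u u + a4 A β v v u = 0 ∧ a4 A α u u v + a4 A α u v u + a4 A α v u u = 0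

lemma two_letter {A : C4 N} (hJ : ∀ f g h, tr (JJ A (gr f) (gr g) (gr h)) = 0) : HH A := by
  intro u v α β h1 h2 h3 h4
  have hd : ∀ s a, ![α, β] s ⬝ᵥ ![u, v] a = if s = a then 1 else 0 := by
    intro s a; fin_cases s <;> fin_cases a <;> simp [h1, h2, h3, h4]
  have e1 := jtestz hJ ![α, β] ![u, v] PQz hd [0] [0, 0, 0] [0, 0, 1, 1]
    ![![![![0, 0], ![0, 0]], ![![0, 0], ![0, 0]]], ![![![-3, 0], ![0, 0]], ![![0, 0], ![0, 0]]]] (by decide +kernel)
  have e2 := jtestz hJ ![α, β] ![u, v] PQz hd [0] [0, 0, 1] [0, 0, 1, 1]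
    ![![![![1, 0], ![0, 0]], ![![0, 0], ![0, 0]]], ![![![0, 0], ![-2, 0]], ![![0, 0], ![0, 0]]]] (by decide +kernel)
  have e3 := jtestz hJ ![α, β] ![u, v] PQz hd [1] [0, 0, 0] [0, 0, 1, 1]
    ![![![![0, 0], ![0, 0]], ![![0, 0], ![0, 0]]], ![![![0, -3], ![3, 0]], ![![-3, 0], ![0, 0]]]] (by decide +kernel)
  have e4 := jtestz hJ ![α, β] ![u, v] PQz hd [0, 0] [0, 1] [0, 0, 1, 1]
    ![![![![4, 4], ![0, 0]], ![![-4, 0], ![0, 0]]], ![![![0, 2], ![0, 4]], ![![2, 0], ![-4, 0]]]] (by decide +kernel)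
  have e5 := jtestz hJ ![α, β] ![u, v] PQz hd [0] [0, 1, 1] [0, 0, 1, 1]
    ![![![![0, 0], ![2, 0]], ![![0, 0], ![0, 0]]], ![![![0, 0], ![0, -1]], ![![0, 1], ![-1, 0]]]] (by decide +kernel)
  have e6 := jtestz hJ ![α, β] ![u, v] PQz hd [1] [0, 0, 1] [0, 0, 1, 1]
    ![![![![0, 1], ![-1, 0]], ![![1, 0], ![0, 0]]], ![![![0, 0], ![0, 0]], ![![0, -2], ![0, 0]]]] (by decide +kernel)
  have e7 := jtestz hJ ![α, β] ![u, v] PQz hd [0, 0] [0, 1] [1, 1]
    ![![![![0, 4], ![0, 0]], ![![-4, 0], ![0, 0]]], ![![![0, 0], ![0, 4]], ![![0, 0], ![-4, 0]]]] (by decide +kernel)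
  have e8 := jtestz hJ ![α, β] ![u, v] PQz hd [0, 0] [1, 1] [0, 0, 1, 1]
    ![![![![0, 0], ![4, 0]], ![![4, 0], ![0, 0]]], ![![![0, 0], ![0, 0]], ![![0, 4], ![4, 0]]]] (by decide +kernel)
  simp only [Fin.sum_univ_two, Matrix.cons_val_zero, Matrix.cons_val_one] at e1 e2 e3 e4 e5 e6 e7 e8
  push_cast at e1 e2 e3 e4 e5 e6 e7 e8
  refine ⟨?_, ?_, ?_, ?_, ?_, ?_, ?_⟩
  · linear_combination (-1/3) * e1
  · linear_combination (1/5) * e2 + (-1/5) * e7 + (1/5) * e4 + (2/15) * e3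
  · linear_combination (-1/10) * e7 + (1/10) * e4 + (-2/5) * e2 + (1/15) * e3
  · linear_combination (-4/15) * e3 + (-1/10) * e7 + (1/10) * e4 + (-2/5) * e2
  · linear_combination (1/5) * e6 + (-1/5) * e5 + (1/5) * e7 + (3/20) * e8
  · linear_combination (1/5) * e6 + (-1/5) * e5 + (-1/20) * e7 + (3/20) * e8
  · linear_combination (2/5) * e5 + (3/5) * e6 + (1/5) * e8 + (1/10) * e7

def ee (i : Fin N) : Fin N → ℂ := Pi.single i 1

lemma a4_add0 (A : C4 N) (α β u v w) : a4 A (α + β) u v w = a4 A α u v w + a4 A β u v w := by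
  simp only [a4, Pi.add_apply, mul_add, Finset.sum_add_distrib]
lemma a4_add1 (A : C4 N) (α u u' v w) : a4 A α (u + u') v w = a4 A α u v w + a4 A α u' v w := by
  simp only [a4, Pi.add_apply, add_mul, Finset.sum_add_distrib]
lemma a4_add2 (A : C4 N) (α u v v' w) : a4 A α u (v + v') w = a4 A α u v w + a4 A α u v' w := by
  simp only [a4, Pi.add_apply, add_mul, mul_add, Finset.sum_add_distrib]
lemma a4_add3 (A : C4 N) (α u v w w') : a4 A α u v (w + w') = a4 A α u v w + a4 A α u v w' := by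
  simp only [a4, Pi.add_apply, add_mul, mul_add, Finset.sum_add_distrib]
lemma a4_ee (A : C4 N) (m i j l) : a4 A (ee m) (ee i) (ee j) (ee l) = A i j l m := by
  simp [a4, ee, Pi.single_apply]

lemma gr_xx (a : Fin N) : gr (xx a) = fun i => if a = i then 1 else 0 := by
  ext i; rw [gr, grad_eq, DD_xx]

lemma lin_test {A : C4 N} (hJ : ∀ f g h, tr (JJ A (gr f) (gr g) (gr h)) = 0) (i j l m : Fin N) :
    A i j l m + A j l i m + A l i j m - A l j i m - A j i l m - A i l j m = 0 := by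
  have := trace_rep (fun k => if k = m then 1 else 0) (hJ (xx i) (xx j) (xx l))
  simp [JJ, T4, gr_xx, rep_xx, Matrix.trace_sub, Matrix.trace_add] at this
  linear_combination this / 3

section patterns
variable {A : C4 N} (hH : HH A)
  (hL : ∀ i j l m, A i j l m + A j l i m + A l i j m - A l j i m - A j i l m - A i l j m = 0)
include hH hL

lemma p_iiii {i j : Fin N} (hij : i ≠ j) :
    (1) * A i i i i = 0 := by
  have g0 := hH (ee i) (ee j) (ee i) (ee j)
    (by simp [ee, hij, hij.symm]) (by simp [ee, hij, hij.symm])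
    (by simp [ee, hij, hij.symm]) (by simp [ee, hij, hij.symm])
  simp only [a4_add0, a4_add1, a4_add2, a4_add3, a4_ee] at g0
  linear_combination (1) * g0.2.1

lemma p_iiij {i j : Fin N} (hij : i ≠ j) :
    (1) * A i i i j = 0 := by
  have g0 := hH (ee i) (ee j) (ee i) (ee j)
    (by simp [ee, hij, hij.symm]) (by simp [ee, hij, hij.symm])
    (by simp [ee, hij, hij.symm]) (by simp [ee, hij, hij.symm])
  simp only [a4_add0, a4_add1, a4_add2, a4_add3, a4_ee] at g0
  linear_combination (1) * g0.1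

lemma p_iiji {i j : Fin N} (hij : i ≠ j) :
    (1) * A i i j i + (1) * A i j j j = 0 := by
  have g0 := hH (ee i) (ee j) (ee i) (ee j)
    (by simp [ee, hij, hij.symm]) (by simp [ee, hij, hij.symm])
    (by simp [ee, hij, hij.symm]) (by simp [ee, hij, hij.symm])
  simp only [a4_add0, a4_add1, a4_add2, a4_add3, a4_ee] at g0
  linear_combination (1) * g0.2.2.2.2.1

lemma p_ijii {i j : Fin N} (hij : i ≠ j) :
    (1) * A i j i i + (-1) * A i j j j + (1) * A j i i i = 0 := by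
  have g0 := hH (ee i) (ee j) (ee i) (ee j)
    (by simp [ee, hij, hij.symm]) (by simp [ee, hij, hij.symm])
    (by simp [ee, hij, hij.symm]) (by simp [ee, hij, hij.symm])
  simp only [a4_add0, a4_add1, a4_add2, a4_add3, a4_ee] at g0
  linear_combination (1) * g0.2.2.2.2.2.2
    + (-1) * g0.2.2.2.2.1

lemma p_ijij {i j : Fin N} (hij : i ≠ j) :
    (1) * A i j i j = 0 := by
  have g0 := hH (ee i) (ee j) (ee i) (ee j)
    (by simp [ee, hij, hij.symm]) (by simp [ee, hij, hij.symm])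
    (by simp [ee, hij, hij.symm]) (by simp [ee, hij, hij.symm])
  simp only [a4_add0, a4_add1, a4_add2, a4_add3, a4_ee] at g0
  linear_combination (1) * g0.2.2.1

lemma p_ijji {i j : Fin N} (hij : i ≠ j) :
    (1) * A i j j i + (1) * A j j i i = 0 := by
  have g0 := hH (ee j) (ee i) (ee j) (ee i)
    (by simp [ee, hij, hij.symm]) (by simp [ee, hij, hij.symm])
    (by simp [ee, hij, hij.symm]) (by simp [ee, hij, hij.symm])
  simp only [a4_add0, a4_add1, a4_add2, a4_add3, a4_ee] at g0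
  linear_combination (1) * g0.2.2.2.1

lemma p_ind {i j k : Fin N} (hij : i ≠ j) (hik : i ≠ k) (hjk : j ≠ k) :
    (1) * A i i j j + (-1) * A i i k k = 0 := by
  have g0 := hH (ee i) (ee j) (ee i) (ee j)
    (by simp [ee, hij, hij.symm, hik, hik.symm, hjk, hjk.symm]) (by simp [ee, hij, hij.symm, hik, hik.symm, hjk, hjk.symm])
    (by simp [ee, hij, hij.symm, hik, hik.symm, hjk, hjk.symm]) (by simp [ee, hij, hij.symm, hik, hik.symm, hjk, hjk.symm])
  simp only [a4_add0, a4_add1, a4_add2, a4_add3, a4_ee] at g0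
  have g1 := hH (ee i + ee j) (ee i + ee k) (ee j) (ee k)
    (by simp [ee, hij, hij.symm, hik, hik.symm, hjk, hjk.symm]) (by simp [ee, hij, hij.symm, hik, hik.symm, hjk, hjk.symm])
    (by simp [ee, hij, hij.symm, hik, hik.symm, hjk, hjk.symm]) (by simp [ee, hij, hij.symm, hik, hik.symm, hjk, hjk.symm])
  simp only [a4_add0, a4_add1, a4_add2, a4_add3, a4_ee] at g1
  have g2 := hH (ee i) (ee k) (ee i) (ee k)
    (by simp [ee, hij, hij.symm, hik, hik.symm, hjk, hjk.symm]) (by simp [ee, hij, hij.symm, hik, hik.symm, hjk, hjk.symm])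
    (by simp [ee, hij, hij.symm, hik, hik.symm, hjk, hjk.symm]) (by simp [ee, hij, hij.symm, hik, hik.symm, hjk, hjk.symm])
  simp only [a4_add0, a4_add1, a4_add2, a4_add3, a4_ee] at g2
  have g3 := hH (ee k) (ee i + ee j) (ee k) (ee j)
    (by simp [ee, hij, hij.symm, hik, hik.symm, hjk, hjk.symm]) (by simp [ee, hij, hij.symm, hik, hik.symm, hjk, hjk.symm])
    (by simp [ee, hij, hij.symm, hik, hik.symm, hjk, hjk.symm]) (by simp [ee, hij, hij.symm, hik, hik.symm, hjk, hjk.symm])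
  simp only [a4_add0, a4_add1, a4_add2, a4_add3, a4_ee] at g3
  have g4 := hH (ee j) (ee k) (ee j) (ee k)
    (by simp [ee, hij, hij.symm, hik, hik.symm, hjk, hjk.symm]) (by simp [ee, hij, hij.symm, hik, hik.symm, hjk, hjk.symm])
    (by simp [ee, hij, hij.symm, hik, hik.symm, hjk, hjk.symm]) (by simp [ee, hij, hij.symm, hik, hik.symm, hjk, hjk.symm])
  simp only [a4_add0, a4_add1, a4_add2, a4_add3, a4_ee] at g4
  have g5 := hH (ee j) (ee i + ee k) (ee j) (ee k)
    (by simp [ee, hij, hij.symm, hik, hik.symm, hjk, hjk.symm]) (by simp [ee, hij, hij.symm, hik, hik.symm, hjk, hjk.symm])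
    (by simp [ee, hij, hij.symm, hik, hik.symm, hjk, hjk.symm]) (by simp [ee, hij, hij.symm, hik, hik.symm, hjk, hjk.symm])
  simp only [a4_add0, a4_add1, a4_add2, a4_add3, a4_ee] at g5
  linear_combination (1) * g0.2.2.2.1
    + (-1) * g1.2.2.2.2.1
    + (1) * g0.1
    + (1) * g2.1
    + (1) * g0.2.2.1
    + (1) * g2.2.2.1
    + (1) * g3.2.2.2.2.2.1
    + (-1) * g4.2.2.2.2.1
    + (1) * g5.2.2.2.2.1

lemma p_iijk {i j k : Fin N} (hij : i ≠ j) (hik : i ≠ k) (hjk : j ≠ k) :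
    (1) * A i i j k = 0 := by
  have g0 := hH (ee i) (ee j) (ee i + ee k) (ee j)
    (by simp [ee, hij, hij.symm, hik, hik.symm, hjk, hjk.symm]) (by simp [ee, hij, hij.symm, hik, hik.symm, hjk, hjk.symm])
    (by simp [ee, hij, hij.symm, hik, hik.symm, hjk, hjk.symm]) (by simp [ee, hij, hij.symm, hik, hik.symm, hjk, hjk.symm])
  simp only [a4_add0, a4_add1, a4_add2, a4_add3, a4_ee] at g0
  have g1 := hH (ee i) (ee j) (ee i) (ee j)
    (by simp [ee, hij, hij.symm, hik, hik.symm, hjk, hjk.symm]) (by simp [ee, hij, hij.symm, hik, hik.symm, hjk, hjk.symm])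
    (by simp [ee, hij, hij.symm, hik, hik.symm, hjk, hjk.symm]) (by simp [ee, hij, hij.symm, hik, hik.symm, hjk, hjk.symm])
  simp only [a4_add0, a4_add1, a4_add2, a4_add3, a4_ee] at g1
  linear_combination (1) * g0.2.2.2.2.1
    + (-1) * g1.2.2.2.2.1

lemma p_ijik {i j k : Fin N} (hij : i ≠ j) (hik : i ≠ k) (hjk : j ≠ k) :
    (1) * A i j i k = 0 := by
  have g0 := hH (ee i) (ee j) (ee i) (ee j + ee k)
    (by simp [ee, hij, hij.symm, hik, hik.symm, hjk, hjk.symm]) (by simp [ee, hij, hij.symm, hik, hik.symm, hjk, hjk.symm])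
    (by simp [ee, hij, hij.symm, hik, hik.symm, hjk, hjk.symm]) (by simp [ee, hij, hij.symm, hik, hik.symm, hjk, hjk.symm])
  simp only [a4_add0, a4_add1, a4_add2, a4_add3, a4_ee] at g0
  have g1 := hH (ee i) (ee j) (ee i) (ee j)
    (by simp [ee, hij, hij.symm, hik, hik.symm, hjk, hjk.symm]) (by simp [ee, hij, hij.symm, hik, hik.symm, hjk, hjk.symm])
    (by simp [ee, hij, hij.symm, hik, hik.symm, hjk, hjk.symm]) (by simp [ee, hij, hij.symm, hik, hik.symm, hjk, hjk.symm])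
  simp only [a4_add0, a4_add1, a4_add2, a4_add3, a4_ee] at g1
  linear_combination (1) * g0.2.2.1
    + (-1) * g1.2.2.1

lemma p_ijjk {i j k : Fin N} (hij : i ≠ j) (hik : i ≠ k) (hjk : j ≠ k) :
    (1) * A i j j k = 0 := by
  have g0 := hH (ee i) (ee j) (ee i) (ee j + ee k)
    (by simp [ee, hij, hij.symm, hik, hik.symm, hjk, hjk.symm]) (by simp [ee, hij, hij.symm, hik, hik.symm, hjk, hjk.symm])
    (by simp [ee, hij, hij.symm, hik, hik.symm, hjk, hjk.symm]) (by simp [ee, hij, hij.symm, hik, hik.symm, hjk, hjk.symm])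
  simp only [a4_add0, a4_add1, a4_add2, a4_add3, a4_ee] at g0
  have g1 := hH (ee i) (ee j) (ee i) (ee j)
    (by simp [ee, hij, hij.symm, hik, hik.symm, hjk, hjk.symm]) (by simp [ee, hij, hij.symm, hik, hik.symm, hjk, hjk.symm])
    (by simp [ee, hij, hij.symm, hik, hik.symm, hjk, hjk.symm]) (by simp [ee, hij, hij.symm, hik, hik.symm, hjk, hjk.symm])
  simp only [a4_add0, a4_add1, a4_add2, a4_add3, a4_ee] at g1
  linear_combination (1) * g0.2.2.2.2.1
    + (-1) * g1.2.2.2.2.1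

lemma p_ijki {i j k : Fin N} (hij : i ≠ j) (hik : i ≠ k) (hjk : j ≠ k) :
    (1) * A i j k i + (1) * A j k k k = 0 := by
  have g0 := hH (ee j) (ee i + ee k) (ee j) (ee i)
    (by simp [ee, hij, hij.symm, hik, hik.symm, hjk, hjk.symm]) (by simp [ee, hij, hij.symm, hik, hik.symm, hjk, hjk.symm])
    (by simp [ee, hij, hij.symm, hik, hik.symm, hjk, hjk.symm]) (by simp [ee, hij, hij.symm, hik, hik.symm, hjk, hjk.symm])
  simp only [a4_add0, a4_add1, a4_add2, a4_add3, a4_ee] at g0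
  have g1 := hH (ee i) (ee j) (ee i) (ee j)
    (by simp [ee, hij, hij.symm, hik, hik.symm, hjk, hjk.symm]) (by simp [ee, hij, hij.symm, hik, hik.symm, hjk, hjk.symm])
    (by simp [ee, hij, hij.symm, hik, hik.symm, hjk, hjk.symm]) (by simp [ee, hij, hij.symm, hik, hik.symm, hjk, hjk.symm])
  simp only [a4_add0, a4_add1, a4_add2, a4_add3, a4_ee] at g1
  have g2 := hH (ee j) (ee k) (ee j) (ee i + ee k)
    (by simp [ee, hij, hij.symm, hik, hik.symm, hjk, hjk.symm]) (by simp [ee, hij, hij.symm, hik, hik.symm, hjk, hjk.symm])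
    (by simp [ee, hij, hij.symm, hik, hik.symm, hjk, hjk.symm]) (by simp [ee, hij, hij.symm, hik, hik.symm, hjk, hjk.symm])
  simp only [a4_add0, a4_add1, a4_add2, a4_add3, a4_ee] at g2
  have g3 := hH (ee k) (ee i + ee j) (ee k) (ee i)
    (by simp [ee, hij, hij.symm, hik, hik.symm, hjk, hjk.symm]) (by simp [ee, hij, hij.symm, hik, hik.symm, hjk, hjk.symm])
    (by simp [ee, hij, hij.symm, hik, hik.symm, hjk, hjk.symm]) (by simp [ee, hij, hij.symm, hik, hik.symm, hjk, hjk.symm])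
  simp only [a4_add0, a4_add1, a4_add2, a4_add3, a4_ee] at g3
  have g4 := hH (ee i) (ee k) (ee i) (ee k)
    (by simp [ee, hij, hij.symm, hik, hik.symm, hjk, hjk.symm]) (by simp [ee, hij, hij.symm, hik, hik.symm, hjk, hjk.symm])
    (by simp [ee, hij, hij.symm, hik, hik.symm, hjk, hjk.symm]) (by simp [ee, hij, hij.symm, hik, hik.symm, hjk, hjk.symm])
  simp only [a4_add0, a4_add1, a4_add2, a4_add3, a4_ee] at g4
  have g5 := hH (ee j) (ee k) (ee j) (ee k)
    (by simp [ee, hij, hij.symm, hik, hik.symm, hjk, hjk.symm]) (by simp [ee, hij, hij.symm, hik, hik.symm, hjk, hjk.symm])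
    (by simp [ee, hij, hij.symm, hik, hik.symm, hjk, hjk.symm]) (by simp [ee, hij, hij.symm, hik, hik.symm, hjk, hjk.symm])
  simp only [a4_add0, a4_add1, a4_add2, a4_add3, a4_ee] at g5
  have g6 := hH (ee j) (ee k) (ee i + ee j) (ee k)
    (by simp [ee, hij, hij.symm, hik, hik.symm, hjk, hjk.symm]) (by simp [ee, hij, hij.symm, hik, hik.symm, hjk, hjk.symm])
    (by simp [ee, hij, hij.symm, hik, hik.symm, hjk, hjk.symm]) (by simp [ee, hij, hij.symm, hik, hik.symm, hjk, hjk.symm])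
  simp only [a4_add0, a4_add1, a4_add2, a4_add3, a4_ee] at g6
  have g7 := hH (ee i + ee j) (ee k) (ee i) (ee k)
    (by simp [ee, hij, hij.symm, hik, hik.symm, hjk, hjk.symm]) (by simp [ee, hij, hij.symm, hik, hik.symm, hjk, hjk.symm])
    (by simp [ee, hij, hij.symm, hik, hik.symm, hjk, hjk.symm]) (by simp [ee, hij, hij.symm, hik, hik.symm, hjk, hjk.symm])
  simp only [a4_add0, a4_add1, a4_add2, a4_add3, a4_ee] at g7
  linear_combination (1/6) * hL i j k i
    + (-1/3) * g0.2.2.2.2.2.1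
    + (1/3) * g1.2.2.2.2.1
    + (1/3) * g2.2.2.2.2.2.1
    + (-2/3) * g0.2.2.2.2.1
    + (2/3) * g1.2.2.2.2.2.1
    + (2/3) * g2.2.2.2.2.1
    + (1/3) * g3.2.2.2.2.2.1
    + (-1/3) * g4.2.2.2.2.1
    + (-1/6) * g2.2.2.2.1
    + (1/6) * g5.2.2.2.1
    + (-1/3) * g3.2.2.2.2.1
    + (1/3) * g4.2.2.2.2.2.1
    + (-2/3) * g6.2.2.2.2.1
    + (2/3) * g5.2.2.2.2.1
    + (1/2) * g7.2.2.2.2.2.2
    + (-1/2) * g4.2.2.2.2.2.2
    + (-1/2) * g2.2.2.1
    + (1/2) * g5.2.2.1

lemma p_ijkj {i j k : Fin N} (hij : i ≠ j) (hik : i ≠ k) (hjk : j ≠ k) :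
    (1) * A i j k j = 0 := by
  have g0 := hH (ee i) (ee j + ee k) (ee i) (ee j)
    (by simp [ee, hij, hij.symm, hik, hik.symm, hjk, hjk.symm]) (by simp [ee, hij, hij.symm, hik, hik.symm, hjk, hjk.symm])
    (by simp [ee, hij, hij.symm, hik, hik.symm, hjk, hjk.symm]) (by simp [ee, hij, hij.symm, hik, hik.symm, hjk, hjk.symm])
  simp only [a4_add0, a4_add1, a4_add2, a4_add3, a4_ee] at g0
  have g1 := hH (ee i) (ee j) (ee i) (ee j)
    (by simp [ee, hij, hij.symm, hik, hik.symm, hjk, hjk.symm]) (by simp [ee, hij, hij.symm, hik, hik.symm, hjk, hjk.symm])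
    (by simp [ee, hij, hij.symm, hik, hik.symm, hjk, hjk.symm]) (by simp [ee, hij, hij.symm, hik, hik.symm, hjk, hjk.symm])
  simp only [a4_add0, a4_add1, a4_add2, a4_add3, a4_ee] at g1
  have g2 := hH (ee i) (ee k) (ee i) (ee j + ee k)
    (by simp [ee, hij, hij.symm, hik, hik.symm, hjk, hjk.symm]) (by simp [ee, hij, hij.symm, hik, hik.symm, hjk, hjk.symm])
    (by simp [ee, hij, hij.symm, hik, hik.symm, hjk, hjk.symm]) (by simp [ee, hij, hij.symm, hik, hik.symm, hjk, hjk.symm])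
  simp only [a4_add0, a4_add1, a4_add2, a4_add3, a4_ee] at g2
  have g3 := hH (ee k) (ee i + ee j) (ee k) (ee j)
    (by simp [ee, hij, hij.symm, hik, hik.symm, hjk, hjk.symm]) (by simp [ee, hij, hij.symm, hik, hik.symm, hjk, hjk.symm])
    (by simp [ee, hij, hij.symm, hik, hik.symm, hjk, hjk.symm]) (by simp [ee, hij, hij.symm, hik, hik.symm, hjk, hjk.symm])
  simp only [a4_add0, a4_add1, a4_add2, a4_add3, a4_ee] at g3
  have g4 := hH (ee j) (ee k) (ee j) (ee k)
    (by simp [ee, hij, hij.symm, hik, hik.symm, hjk, hjk.symm]) (by simp [ee, hij, hij.symm, hik, hik.symm, hjk, hjk.symm])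
    (by simp [ee, hij, hij.symm, hik, hik.symm, hjk, hjk.symm]) (by simp [ee, hij, hij.symm, hik, hik.symm, hjk, hjk.symm])
  simp only [a4_add0, a4_add1, a4_add2, a4_add3, a4_ee] at g4
  have g5 := hH (ee i) (ee k) (ee i + ee j) (ee k)
    (by simp [ee, hij, hij.symm, hik, hik.symm, hjk, hjk.symm]) (by simp [ee, hij, hij.symm, hik, hik.symm, hjk, hjk.symm])
    (by simp [ee, hij, hij.symm, hik, hik.symm, hjk, hjk.symm]) (by simp [ee, hij, hij.symm, hik, hik.symm, hjk, hjk.symm])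
  simp only [a4_add0, a4_add1, a4_add2, a4_add3, a4_ee] at g5
  have g6 := hH (ee i) (ee k) (ee i) (ee k)
    (by simp [ee, hij, hij.symm, hik, hik.symm, hjk, hjk.symm]) (by simp [ee, hij, hij.symm, hik, hik.symm, hjk, hjk.symm])
    (by simp [ee, hij, hij.symm, hik, hik.symm, hjk, hjk.symm]) (by simp [ee, hij, hij.symm, hik, hik.symm, hjk, hjk.symm])
  simp only [a4_add0, a4_add1, a4_add2, a4_add3, a4_ee] at g6
  have g7 := hH (ee i + ee j) (ee k) (ee j) (ee k)
    (by simp [ee, hij, hij.symm, hik, hik.symm, hjk, hjk.symm]) (by simp [ee, hij, hij.symm, hik, hik.symm, hjk, hjk.symm])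
    (by simp [ee, hij, hij.symm, hik, hik.symm, hjk, hjk.symm]) (by simp [ee, hij, hij.symm, hik, hik.symm, hjk, hjk.symm])
  simp only [a4_add0, a4_add1, a4_add2, a4_add3, a4_ee] at g7
  linear_combination (1/6) * hL i j k j
    + (2/3) * g0.2.2.2.2.1
    + (-2/3) * g1.2.2.2.2.1
    + (-2/3) * g2.2.2.2.2.1
    + (2/3) * g3.2.2.2.2.2.1
    + (-2/3) * g4.2.2.2.2.1
    + (1/3) * g0.2.2.2.2.2.1
    + (-1/3) * g1.2.2.2.2.2.1
    + (-1/3) * g2.2.2.2.2.2.1
    + (-1/3) * g5.2.2.2.2.1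
    + (1/3) * g6.2.2.2.2.1
    + (1/3) * g3.2.2.2.2.1
    + (1/6) * g2.2.2.2.1
    + (-1/6) * g6.2.2.2.1
    + (-1/3) * g4.2.2.2.2.2.1
    + (-1/2) * g7.2.2.2.2.2.2
    + (1/2) * g2.2.2.1
    + (-1/2) * g6.2.2.1
    + (1/2) * g4.2.2.2.2.2.2

lemma p_ijkk {i j k : Fin N} (hij : i ≠ j) (hik : i ≠ k) (hjk : j ≠ k) :
    (1) * A i j k k + (-1) * A i j j j = 0 := by
  have g0 := hH (ee i) (ee j + ee k) (ee i) (ee k)
    (by simp [ee, hij, hij.symm, hik, hik.symm, hjk, hjk.symm]) (by simp [ee, hij, hij.symm, hik, hik.symm, hjk, hjk.symm])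
    (by simp [ee, hij, hij.symm, hik, hik.symm, hjk, hjk.symm]) (by simp [ee, hij, hij.symm, hik, hik.symm, hjk, hjk.symm])
  simp only [a4_add0, a4_add1, a4_add2, a4_add3, a4_ee] at g0
  have g1 := hH (ee i) (ee k) (ee i) (ee k)
    (by simp [ee, hij, hij.symm, hik, hik.symm, hjk, hjk.symm]) (by simp [ee, hij, hij.symm, hik, hik.symm, hjk, hjk.symm])
    (by simp [ee, hij, hij.symm, hik, hik.symm, hjk, hjk.symm]) (by simp [ee, hij, hij.symm, hik, hik.symm, hjk, hjk.symm])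
  simp only [a4_add0, a4_add1, a4_add2, a4_add3, a4_ee] at g1
  have g2 := hH (ee i) (ee j) (ee i) (ee j + ee k)
    (by simp [ee, hij, hij.symm, hik, hik.symm, hjk, hjk.symm]) (by simp [ee, hij, hij.symm, hik, hik.symm, hjk, hjk.symm])
    (by simp [ee, hij, hij.symm, hik, hik.symm, hjk, hjk.symm]) (by simp [ee, hij, hij.symm, hik, hik.symm, hjk, hjk.symm])
  simp only [a4_add0, a4_add1, a4_add2, a4_add3, a4_ee] at g2
  have g3 := hH (ee j) (ee i + ee k) (ee j) (ee k)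
    (by simp [ee, hij, hij.symm, hik, hik.symm, hjk, hjk.symm]) (by simp [ee, hij, hij.symm, hik, hik.symm, hjk, hjk.symm])
    (by simp [ee, hij, hij.symm, hik, hik.symm, hjk, hjk.symm]) (by simp [ee, hij, hij.symm, hik, hik.symm, hjk, hjk.symm])
  simp only [a4_add0, a4_add1, a4_add2, a4_add3, a4_ee] at g3
  have g4 := hH (ee i) (ee j) (ee i + ee k) (ee j)
    (by simp [ee, hij, hij.symm, hik, hik.symm, hjk, hjk.symm]) (by simp [ee, hij, hij.symm, hik, hik.symm, hjk, hjk.symm])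
    (by simp [ee, hij, hij.symm, hik, hik.symm, hjk, hjk.symm]) (by simp [ee, hij, hij.symm, hik, hik.symm, hjk, hjk.symm])
  simp only [a4_add0, a4_add1, a4_add2, a4_add3, a4_ee] at g4
  have g5 := hH (ee i) (ee j) (ee i) (ee j)
    (by simp [ee, hij, hij.symm, hik, hik.symm, hjk, hjk.symm]) (by simp [ee, hij, hij.symm, hik, hik.symm, hjk, hjk.symm])
    (by simp [ee, hij, hij.symm, hik, hik.symm, hjk, hjk.symm]) (by simp [ee, hij, hij.symm, hik, hik.symm, hjk, hjk.symm])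
  simp only [a4_add0, a4_add1, a4_add2, a4_add3, a4_ee] at g5
  have g6 := hH (ee j) (ee k) (ee j) (ee k)
    (by simp [ee, hij, hij.symm, hik, hik.symm, hjk, hjk.symm]) (by simp [ee, hij, hij.symm, hik, hik.symm, hjk, hjk.symm])
    (by simp [ee, hij, hij.symm, hik, hik.symm, hjk, hjk.symm]) (by simp [ee, hij, hij.symm, hik, hik.symm, hjk, hjk.symm])
  simp only [a4_add0, a4_add1, a4_add2, a4_add3, a4_ee] at g6
  have g7 := hH (ee i + ee j) (ee k) (ee i) (ee k)
    (by simp [ee, hij, hij.symm, hik, hik.symm, hjk, hjk.symm]) (by simp [ee, hij, hij.symm, hik, hik.symm, hjk, hjk.symm])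
    (by simp [ee, hij, hij.symm, hik, hik.symm, hjk, hjk.symm]) (by simp [ee, hij, hij.symm, hik, hik.symm, hjk, hjk.symm])
  simp only [a4_add0, a4_add1, a4_add2, a4_add3, a4_ee] at g7
  linear_combination (1/6) * hL i j k k
    + (5/6) * g0.2.2.2.2.1
    + (-5/6) * g1.2.2.2.2.1
    + (-5/6) * g2.2.2.2.2.1
    + (-1/6) * g3.2.2.2.2.2.1
    + (1/3) * g4.2.2.2.2.1
    + (-1/3) * g5.2.2.2.2.1
    + (1/6) * g3.2.2.2.2.1
    + (-1/6) * g2.2.2.2.1
    + (1/6) * g5.2.2.2.1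
    + (1/6) * g0.2.2.2.2.2.1
    + (-1/6) * g2.2.2.2.2.2.1
    + (-1/6) * g1.2.2.2.2.2.1
    + (-1/6) * g6.2.2.2.2.1
    + (1/6) * g6.2.2.2.2.2.1
    + (-1/2) * g7.2.2.1
    + (1/2) * g1.2.2.1
    + (1/2) * g6.2.2.1

lemma p_ijkm {i j k m : Fin N} (hij : i ≠ j) (hik : i ≠ k) (him : i ≠ m) (hjk : j ≠ k) (hjm : j ≠ m) (hkm : k ≠ m) :
    (1) * A i j k m = 0 := by
  have g0 := hH (ee i) (ee j + ee k) (ee i) (ee j + ee m)
    (by simp [ee, hij, hij.symm, hik, hik.symm, him, him.symm, hjk, hjk.symm, hjm, hjm.symm, hkm, hkm.symm]) (by simp [ee, hij, hij.symm, hik, hik.symm, him, him.symm, hjk, hjk.symm, hjm, hjm.symm, hkm, hkm.symm])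
    (by simp [ee, hij, hij.symm, hik, hik.symm, him, him.symm, hjk, hjk.symm, hjm, hjm.symm, hkm, hkm.symm]) (by simp [ee, hij, hij.symm, hik, hik.symm, him, him.symm, hjk, hjk.symm, hjm, hjm.symm, hkm, hkm.symm])
  simp only [a4_add0, a4_add1, a4_add2, a4_add3, a4_ee] at g0
  have g1 := hH (ee i) (ee j) (ee i) (ee j + ee m)
    (by simp [ee, hij, hij.symm, hik, hik.symm, him, him.symm, hjk, hjk.symm, hjm, hjm.symm, hkm, hkm.symm]) (by simp [ee, hij, hij.symm, hik, hik.symm, him, him.symm, hjk, hjk.symm, hjm, hjm.symm, hkm, hkm.symm])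
    (by simp [ee, hij, hij.symm, hik, hik.symm, him, him.symm, hjk, hjk.symm, hjm, hjm.symm, hkm, hkm.symm]) (by simp [ee, hij, hij.symm, hik, hik.symm, him, him.symm, hjk, hjk.symm, hjm, hjm.symm, hkm, hkm.symm])
  simp only [a4_add0, a4_add1, a4_add2, a4_add3, a4_ee] at g1
  have g2 := hH (ee i) (ee j + ee k) (ee i) (ee j)
    (by simp [ee, hij, hij.symm, hik, hik.symm, him, him.symm, hjk, hjk.symm, hjm, hjm.symm, hkm, hkm.symm]) (by simp [ee, hij, hij.symm, hik, hik.symm, him, him.symm, hjk, hjk.symm, hjm, hjm.symm, hkm, hkm.symm])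
    (by simp [ee, hij, hij.symm, hik, hik.symm, him, him.symm, hjk, hjk.symm, hjm, hjm.symm, hkm, hkm.symm]) (by simp [ee, hij, hij.symm, hik, hik.symm, him, him.symm, hjk, hjk.symm, hjm, hjm.symm, hkm, hkm.symm])
  simp only [a4_add0, a4_add1, a4_add2, a4_add3, a4_ee] at g2
  have g3 := hH (ee i) (ee k) (ee i) (ee k + ee m)
    (by simp [ee, hij, hij.symm, hik, hik.symm, him, him.symm, hjk, hjk.symm, hjm, hjm.symm, hkm, hkm.symm]) (by simp [ee, hij, hij.symm, hik, hik.symm, him, him.symm, hjk, hjk.symm, hjm, hjm.symm, hkm, hkm.symm])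
    (by simp [ee, hij, hij.symm, hik, hik.symm, him, him.symm, hjk, hjk.symm, hjm, hjm.symm, hkm, hkm.symm]) (by simp [ee, hij, hij.symm, hik, hik.symm, him, him.symm, hjk, hjk.symm, hjm, hjm.symm, hkm, hkm.symm])
  simp only [a4_add0, a4_add1, a4_add2, a4_add3, a4_ee] at g3
  have g4 := hH (ee i) (ee k) (ee i) (ee k)
    (by simp [ee, hij, hij.symm, hik, hik.symm, him, him.symm, hjk, hjk.symm, hjm, hjm.symm, hkm, hkm.symm]) (by simp [ee, hij, hij.symm, hik, hik.symm, him, him.symm, hjk, hjk.symm, hjm, hjm.symm, hkm, hkm.symm])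
    (by simp [ee, hij, hij.symm, hik, hik.symm, him, him.symm, hjk, hjk.symm, hjm, hjm.symm, hkm, hkm.symm]) (by simp [ee, hij, hij.symm, hik, hik.symm, him, him.symm, hjk, hjk.symm, hjm, hjm.symm, hkm, hkm.symm])
  simp only [a4_add0, a4_add1, a4_add2, a4_add3, a4_ee] at g4
  have g5 := hH (ee j) (ee i + ee k) (ee j) (ee i + ee m)
    (by simp [ee, hij, hij.symm, hik, hik.symm, him, him.symm, hjk, hjk.symm, hjm, hjm.symm, hkm, hkm.symm]) (by simp [ee, hij, hij.symm, hik, hik.symm, him, him.symm, hjk, hjk.symm, hjm, hjm.symm, hkm, hkm.symm])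
    (by simp [ee, hij, hij.symm, hik, hik.symm, him, him.symm, hjk, hjk.symm, hjm, hjm.symm, hkm, hkm.symm]) (by simp [ee, hij, hij.symm, hik, hik.symm, him, him.symm, hjk, hjk.symm, hjm, hjm.symm, hkm, hkm.symm])
  simp only [a4_add0, a4_add1, a4_add2, a4_add3, a4_ee] at g5
  have g6 := hH (ee i) (ee j) (ee i + ee m) (ee j)
    (by simp [ee, hij, hij.symm, hik, hik.symm, him, him.symm, hjk, hjk.symm, hjm, hjm.symm, hkm, hkm.symm]) (by simp [ee, hij, hij.symm, hik, hik.symm, him, him.symm, hjk, hjk.symm, hjm, hjm.symm, hkm, hkm.symm])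
    (by simp [ee, hij, hij.symm, hik, hik.symm, him, him.symm, hjk, hjk.symm, hjm, hjm.symm, hkm, hkm.symm]) (by simp [ee, hij, hij.symm, hik, hik.symm, him, him.symm, hjk, hjk.symm, hjm, hjm.symm, hkm, hkm.symm])
  simp only [a4_add0, a4_add1, a4_add2, a4_add3, a4_ee] at g6
  have g7 := hH (ee i) (ee j) (ee i) (ee j)
    (by simp [ee, hij, hij.symm, hik, hik.symm, him, him.symm, hjk, hjk.symm, hjm, hjm.symm, hkm, hkm.symm]) (by simp [ee, hij, hij.symm, hik, hik.symm, him, him.symm, hjk, hjk.symm, hjm, hjm.symm, hkm, hkm.symm])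
    (by simp [ee, hij, hij.symm, hik, hik.symm, him, him.symm, hjk, hjk.symm, hjm, hjm.symm, hkm, hkm.symm]) (by simp [ee, hij, hij.symm, hik, hik.symm, him, him.symm, hjk, hjk.symm, hjm, hjm.symm, hkm, hkm.symm])
  simp only [a4_add0, a4_add1, a4_add2, a4_add3, a4_ee] at g7
  have g8 := hH (ee j) (ee i + ee k) (ee j) (ee i)
    (by simp [ee, hij, hij.symm, hik, hik.symm, him, him.symm, hjk, hjk.symm, hjm, hjm.symm, hkm, hkm.symm]) (by simp [ee, hij, hij.symm, hik, hik.symm, him, him.symm, hjk, hjk.symm, hjm, hjm.symm, hkm, hkm.symm])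
    (by simp [ee, hij, hij.symm, hik, hik.symm, him, him.symm, hjk, hjk.symm, hjm, hjm.symm, hkm, hkm.symm]) (by simp [ee, hij, hij.symm, hik, hik.symm, him, him.symm, hjk, hjk.symm, hjm, hjm.symm, hkm, hkm.symm])
  simp only [a4_add0, a4_add1, a4_add2, a4_add3, a4_ee] at g8
  have g9 := hH (ee j) (ee k) (ee j) (ee k + ee m)
    (by simp [ee, hij, hij.symm, hik, hik.symm, him, him.symm, hjk, hjk.symm, hjm, hjm.symm, hkm, hkm.symm]) (by simp [ee, hij, hij.symm, hik, hik.symm, him, him.symm, hjk, hjk.symm, hjm, hjm.symm, hkm, hkm.symm])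
    (by simp [ee, hij, hij.symm, hik, hik.symm, him, him.symm, hjk, hjk.symm, hjm, hjm.symm, hkm, hkm.symm]) (by simp [ee, hij, hij.symm, hik, hik.symm, him, him.symm, hjk, hjk.symm, hjm, hjm.symm, hkm, hkm.symm])
  simp only [a4_add0, a4_add1, a4_add2, a4_add3, a4_ee] at g9
  have g10 := hH (ee j) (ee k) (ee j) (ee k)
    (by simp [ee, hij, hij.symm, hik, hik.symm, him, him.symm, hjk, hjk.symm, hjm, hjm.symm, hkm, hkm.symm]) (by simp [ee, hij, hij.symm, hik, hik.symm, him, him.symm, hjk, hjk.symm, hjm, hjm.symm, hkm, hkm.symm])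
    (by simp [ee, hij, hij.symm, hik, hik.symm, him, him.symm, hjk, hjk.symm, hjm, hjm.symm, hkm, hkm.symm]) (by simp [ee, hij, hij.symm, hik, hik.symm, him, him.symm, hjk, hjk.symm, hjm, hjm.symm, hkm, hkm.symm])
  simp only [a4_add0, a4_add1, a4_add2, a4_add3, a4_ee] at g10
  have g11 := hH (ee k) (ee i + ee j) (ee k) (ee i + ee m)
    (by simp [ee, hij, hij.symm, hik, hik.symm, him, him.symm, hjk, hjk.symm, hjm, hjm.symm, hkm, hkm.symm]) (by simp [ee, hij, hij.symm, hik, hik.symm, him, him.symm, hjk, hjk.symm, hjm, hjm.symm, hkm, hkm.symm])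
    (by simp [ee, hij, hij.symm, hik, hik.symm, him, him.symm, hjk, hjk.symm, hjm, hjm.symm, hkm, hkm.symm]) (by simp [ee, hij, hij.symm, hik, hik.symm, him, him.symm, hjk, hjk.symm, hjm, hjm.symm, hkm, hkm.symm])
  simp only [a4_add0, a4_add1, a4_add2, a4_add3, a4_ee] at g11
  have g12 := hH (ee i) (ee k) (ee i + ee m) (ee k)
    (by simp [ee, hij, hij.symm, hik, hik.symm, him, him.symm, hjk, hjk.symm, hjm, hjm.symm, hkm, hkm.symm]) (by simp [ee, hij, hij.symm, hik, hik.symm, him, him.symm, hjk, hjk.symm, hjm, hjm.symm, hkm, hkm.symm])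
    (by simp [ee, hij, hij.symm, hik, hik.symm, him, him.symm, hjk, hjk.symm, hjm, hjm.symm, hkm, hkm.symm]) (by simp [ee, hij, hij.symm, hik, hik.symm, him, him.symm, hjk, hjk.symm, hjm, hjm.symm, hkm, hkm.symm])
  simp only [a4_add0, a4_add1, a4_add2, a4_add3, a4_ee] at g12
  have g13 := hH (ee k) (ee i + ee j) (ee k) (ee i)
    (by simp [ee, hij, hij.symm, hik, hik.symm, him, him.symm, hjk, hjk.symm, hjm, hjm.symm, hkm, hkm.symm]) (by simp [ee, hij, hij.symm, hik, hik.symm, him, him.symm, hjk, hjk.symm, hjm, hjm.symm, hkm, hkm.symm])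
    (by simp [ee, hij, hij.symm, hik, hik.symm, him, him.symm, hjk, hjk.symm, hjm, hjm.symm, hkm, hkm.symm]) (by simp [ee, hij, hij.symm, hik, hik.symm, him, him.symm, hjk, hjk.symm, hjm, hjm.symm, hkm, hkm.symm])
  simp only [a4_add0, a4_add1, a4_add2, a4_add3, a4_ee] at g13
  have g14 := hH (ee j) (ee k) (ee j + ee m) (ee k)
    (by simp [ee, hij, hij.symm, hik, hik.symm, him, him.symm, hjk, hjk.symm, hjm, hjm.symm, hkm, hkm.symm]) (by simp [ee, hij, hij.symm, hik, hik.symm, him, him.symm, hjk, hjk.symm, hjm, hjm.symm, hkm, hkm.symm])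
    (by simp [ee, hij, hij.symm, hik, hik.symm, him, him.symm, hjk, hjk.symm, hjm, hjm.symm, hkm, hkm.symm]) (by simp [ee, hij, hij.symm, hik, hik.symm, him, him.symm, hjk, hjk.symm, hjm, hjm.symm, hkm, hkm.symm])
  simp only [a4_add0, a4_add1, a4_add2, a4_add3, a4_ee] at g14
  linear_combination (1/6) * hL i j k m
    + (5/6) * g0.2.2.2.2.1
    + (-5/6) * g1.2.2.2.2.1
    + (-5/6) * g2.2.2.2.2.1
    + (-5/6) * g3.2.2.2.2.1
    + (1/3) * g4.2.2.2.2.1
    + (1/6) * g5.2.2.2.2.1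
    + (5/6) * g6.2.2.2.2.1
    + (-1/6) * g1.2.2.2.1
    + (1/6) * g7.2.2.2.1
    + (-1/6) * g8.2.2.2.2.1
    + (-1/3) * g0.2.2.2.2.2.1
    + (1/3) * g1.2.2.2.2.2.1
    + (1/3) * g2.2.2.2.2.2.1
    + (-1/3) * g7.2.2.2.2.2.1
    + (1/3) * g3.2.2.2.2.2.1
    + (-1/3) * g4.2.2.2.2.2.1
    + (-1/6) * g9.2.2.2.2.1
    + (-1/3) * g10.2.2.2.2.1
    + (-2/3) * g5.2.2.2.2.2.1
    + (2/3) * g8.2.2.2.2.2.1
    + (2/3) * g9.2.2.2.2.2.1
    + (-2/3) * g10.2.2.2.2.2.1
    + (1/2) * g11.2.2.2.2.1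
    + (1/2) * g12.2.2.2.2.1
    + (-1/2) * g3.2.2.2.1
    + (1/2) * g4.2.2.2.1
    + (-1/2) * g13.2.2.2.2.1
    + (1/2) * g14.2.2.2.2.1
    + (-1/2) * g9.2.2.2.1
    + (1/2) * g10.2.2.2.1

end patterns

end Pool.Agent.H.MP_2bcfbf_mp
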