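import Pool.Agent.H.MP_2bcfbf_mp.C

open Matrix

noncomputable section

namespace Pool.Agent.H.MP_2bcfbf_mp

variable {N : ℕ}

lemma psi_form [Nontrivial (Fin N)] {A : C4 N} (hJ : ∀ f g h, tr (JJ A (gr f) (gr g) (gr h)) = 0) :
    ∃ ψ : Fin N → Fin N → ℂ, ∀ i j l m,
      A i j l m = (if i = m then ψ j l else 0) - (if l = m then ψ i j else 0) := by
  have hH := two_letter hJ
  have hL := lin_test hJ
  choose o ho using fun i : Fin N => exists_ne i
  have hd : ∀ i j, i ≠ j → A i i j j = A i i (o i) (o i) := by
    intro i j hij
    rcases eq_or_ne j (o i) with rfl | h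
    · rfl
    · linear_combination p_ind hH hL hij (ho i).symm h
  refine ⟨fun i j => if i = j then -A i i (o i) (o i) else -A i j j j, fun i j l m => ?_⟩
  by_cases hij : i = j
  · subst hij
    by_cases hil : i = l
    · subst hil
      by_cases him : i = m
      · subst him; simp only [if_true]; linear_combination p_iiii hH hL (ho i).symm
      · simp only [if_neg him]; linear_combination p_iiij hH hL him
    · by_cases him : i = m
      · subst him
        simp only [if_true, if_neg hil, if_neg (Ne.symm hil)]
        linear_combination p_iiji hH hL hil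
      · by_cases hlm : l = m
        · subst hlm
          simp only [if_true, if_neg hil]
          linear_combination hd i l hil
        · simp only [if_neg him, if_neg hlm]
          linear_combination p_iijk hH hL hil him hlm
  · by_cases hil : i = l
    · subst hil
      by_cases him : i = m
      · subst him
        simp only [if_true, if_neg hij, if_neg (Ne.symm hij)]
        linear_combination p_ijii hH hL hij
      · simp only [if_neg him]
        by_cases hjm : j = m
        · subst hjm; linear_combination p_ijij hH hL hij
        · linear_combination p_ijik hH hL hij him hjm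
    · by_cases hjl : j = l
      · subst hjl
        by_cases him : i = m
        · subst him
          simp only [if_true, if_neg (Ne.symm hij)]
          linear_combination p_ijji hH hL hij - hd j i (Ne.symm hij)
        · by_cases hjm : j = m
          · subst hjm; simp only [if_true, if_neg hij]; ring
          · simp only [if_neg him, if_neg hjm]
            linear_combination p_ijjk hH hL hij him hjm
      · by_cases him : i = m
        · subst him
          simp only [if_true, if_neg hjl, if_neg (Ne.symm hil)]
          linear_combination p_ijki hH hL hij hil hjl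
        · by_cases hlm : l = m
          · subst hlm
            simp only [if_true, if_neg hil, if_neg hij]
            linear_combination p_ijkk hH hL hij hil hjl
          · simp only [if_neg him, if_neg hlm]
            by_cases hjm : j = m
            · subst hjm; linear_combination p_ijkj hH hL hij hil hjl
            · linear_combination p_ijkm hH hL hij hil him hjl hjm hlm

def B3 (s : C3 N) (F G : Fin N → FA N) : FA N := ∑ i, ∑ j, ∑ k, s i j k • (F i * G j * xx k)

lemma skew_eq (b b' : C3 N) (f g : FA N) : tr (br b b' f g + br b b' g f) =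
    tr (B3 (fun i j k => b i j k + b' j i k) (gr f) (gr g)
      + B3 (fun i j k => b i j k + b' j i k) (gr g) (gr f)) := by
  simp only [map_add, br_eq, tr_bil, B3, map_sum, map_smul, add_smul, Finset.sum_add_distrib]
  rw [Finset.sum_comm (f := fun i j => ∑ k, b' i j k • tr (gr g j * gr f i * xx k)),
    Finset.sum_comm (f := fun i j => ∑ k, b' i j k • tr (gr f j * gr g i * xx k))]
  abel

lemma B3_single (s : C3 N) (i j : Fin N) (X Y : FA N) :
    B3 s (fun a => if i = a then X else 0) (fun a => if j = a then Y else 0) =
      X * Y * lin (s i j) := by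
  simp [B3, lin, Finset.mul_sum]

lemma B3_add1 (s : C3 N) (F F' G : Fin N → FA N) :
    B3 s (fun a => F a + F' a) G = B3 s F G + B3 s F' G := by
  simp only [B3, add_mul, smul_add, Finset.sum_add_distrib]

lemma B3_add2 (s : C3 N) (F G G' : Fin N → FA N) :
    B3 s F (fun a => G a + G' a) = B3 s F G + B3 s F G' := by
  simp only [B3, add_mul, mul_add, smul_add, Finset.sum_add_distrib]

lemma gr_xx2 (j l : Fin N) : gr (xx j * xx l) =
    fun a => (if j = a then xx l else 0) + (if l = a then xx j else 0) := by
  ext a; simp [gr, grad_eq, DD_mul, DD_xx]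

def E3 : Fin 3 → M3 :=
  ![!![0, 1, 0; 0, 0, 0; 0, 0, 0], !![0, 0, 0; 0, 0, 1; 0, 0, 0], !![0, 0, 0; 0, 0, 0; 1, 0, 0]]

lemma skew_form {s : C3 N} (h : ∀ f g, tr (B3 s (gr f) (gr g) + B3 s (gr g) (gr f)) = 0) :
    ∃ lam : Fin N → ℂ, ∀ i j k,
      s i j k = (if j = k then lam i else 0) - (if i = k then lam j else 0) := by
  have h1 : ∀ i j m, s i j m + s j i m = 0 := by
    intro i j m
    have := trace_rep (fun k => if k = m then 1 else 0) (h (xx i) (xx j))
    simp [B3, gr_xx, rep_xx, Matrix.trace_add] at this
    linear_combination this / 3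
  have h2 : ∀ i j k, i ≠ j → i ≠ k → j ≠ k → s i j k = 0 ∧ s i k k + s j i j = 0 := by
    intro i j k hij hik hjk
    set α : Fin 3 → Fin N → ℂ := ![ee i, ee j, ee k] with hα
    have hx : ∀ a : Fin N, xx a = lin (ee a) := fun a => by simp [lin, ee, Pi.single_apply]
    have hi : rep (fun a => ∑ t, α t a • E3 t) (xx i) = E3 0 := by
      rw [hx, rep_lin]; simp [hα, Fin.sum_univ_three, ee, hij.symm, hik.symm]
    have hj : rep (fun a => ∑ t, α t a • E3 t) (xx j) = E3 1 := by
      rw [hx, rep_lin]; simp [hα, Fin.sum_univ_three, ee, hij, hjk.symm]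
    have hk : rep (fun a => ∑ t, α t a • E3 t) (xx k) = E3 2 := by
      rw [hx, rep_lin]; simp [hα, Fin.sum_univ_three, ee, hik, hjk]
    have e1 := trace_rep (fun a => ∑ t, α t a • E3 t) (h (xx i * xx i) (xx j * xx j))
    have e2 := trace_rep (fun a => ∑ t, α t a • E3 t) (h (xx i * xx i) (xx j * xx k))
    simp only [gr_xx2, B3_add1, B3_add2, B3_single, map_add, map_mul, hi, hj, hk, rep_lin] at e1 e2
    simp only [Fin.sum_univ_three, hα] at e1 e2
    simp [E3, ee, Matrix.trace_fin_three] at e1 e2
    exact ⟨e1, by linear_combination e2 / 2⟩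
  rcases subsingleton_or_nontrivial (Fin N) with hs | hs
  · refine ⟨0, fun i j k => ?_⟩
    obtain rfl := Subsingleton.elim i j
    simp only [Pi.zero_apply, ite_self, sub_zero]
    linear_combination h1 i i k / 2
  · choose o ho using fun i : Fin N => exists_ne i
    have hd : ∀ i j, i ≠ j → s i j j = s i (o i) (o i) := by
      intro i j hij
      rcases eq_or_ne j (o i) with rfl | h
      · rfl
      · linear_combination h1 i j j - (h2 i j (o i) hij (ho i).symm h).2
    refine ⟨fun i => s i (o i) (o i), fun i j k => ?_⟩
    by_cases hij : i = j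
    · subst hij; linear_combination h1 i i k / 2
    · by_cases hjk : j = k
      · subst hjk; simp only [if_true, if_neg hij]; linear_combination hd i j hij
      · by_cases hik : i = k
        · subst hik; simp only [if_true, if_neg hjk]
          linear_combination h1 i j i - hd j i (Ne.symm hij)
        · simp only [if_neg hjk, if_neg hik]
          linear_combination (h2 i j k hij hik hjk).1

lemma pentagon [Nontrivial (Fin N)] {c : C3 N} {ψ : Fin N → Fin N → ℂ}
    (h : ∀ i j l m, AA c i j l m = (if i = m then ψ j l else 0) - (if l = m then ψ i j else 0))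
    (i j l : Fin N) : ∑ k, c i j k * ψ k l = ∑ k, c j l k * ψ i k := by
  obtain ⟨d, hd⟩ := exists_ne i
  have e : ∑ k, AA c j l d k * c i k d + ∑ k, AA c i j l k * c k d d =
      ∑ k, c i j k * AA c k l d d - ∑ k, c j l k * AA c i k d d + ∑ k, c l d k * AA c i j k d := by
    simp only [AA, Finset.sum_mul, Finset.mul_sum, sub_mul, mul_sub, Finset.sum_sub_distrib]
    have e1 : ∑ k, ∑ p, c j l p * c p d k * c i k d = ∑ k, ∑ p, c j l k * (c k d p * c i p d) := by
      rw [Finset.sum_comm]; simp only [mul_assoc]
    have e2 : ∑ k, ∑ p, c l d p * c j p k * c i k d = ∑ k, ∑ p, c l d k * (c j k p * c i p d) := by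
      rw [Finset.sum_comm]; simp only [mul_assoc]
    have e3 : ∑ k, ∑ p, c i j p * c p l k * c k d d = ∑ k, ∑ p, c i j k * (c k l p * c p d d) := by
      rw [Finset.sum_comm]; simp only [mul_assoc]
    have e4 : ∑ k, ∑ p, c j l p * c i p k * c k d d = ∑ k, ∑ p, c j l k * (c i k p * c p d d) := by
      rw [Finset.sum_comm]; simp only [mul_assoc]
    have e5 : ∑ k, ∑ p, c i j k * (c l d p * c k p d) =
        ∑ k, ∑ p, c l d k * (c i j p * c p k d) := by
      rw [Finset.sum_comm]; simp only [mul_left_comm]
    rw [e1, e2, e3, e4, e5]; ring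
  simp only [h, sub_mul, mul_sub, Finset.sum_sub_distrib, ite_mul, mul_ite, zero_mul, mul_zero,
    Finset.sum_ite_eq, Finset.sum_ite_eq', Finset.mem_univ, if_true, if_neg hd.symm,
    Finset.sum_const_zero] at e
  linear_combination e

theorem main (b b' : C3 N) : IsNAP b b' ↔ ∃ (lam : Fin N → ℂ) (c : C3 N) (ψ : Fin N → Fin N → ℂ),
    (∀ i j k, b i j k = c i j k - if i = k then lam j else 0) ∧
    (∀ i j k, b' i j k = - c j i k + if i = k then lam j else 0) ∧
    (∀ i j l m, ∑ k, c i j k * c k l m + (if l = m then ψ i j else 0) =
      ∑ k, c j l k * c i k m + (if i = m then ψ j l else 0)) ∧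
    ∀ i j l, ∑ k, c i j k * ψ k l = ∑ k, c j l k * ψ i k := by
  constructor
  · intro h
    obtain ⟨lam, hl⟩ := skew_form (s := fun i j k => b i j k + b' j i k) fun f g => by
      rw [← skew_eq]; exact (sim_iff _).mp (h.1 f g)
    set c : C3 N := fun i j k => b i j k + if i = k then lam j else 0 with hc
    have e : (fun i j k => b' i j k - if i = k then lam j else 0) = cb c := by
      ext i j k
      simp only [cb, hc]
      linear_combination hl j i k
    have h2 := (isNAP_congr (tr_br_shift b b' lam)).mpr h
    rw [e] at h2
    have hJ := (isNAP_normal c).mp h2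
    have hb : ∀ i j k, b i j k = c i j k - if i = k then lam j else 0 := fun i j k => by
      simp [hc]
    have hb' : ∀ i j k, b' i j k = - c j i k + if i = k then lam j else 0 := fun i j k => by
      have := congrFun (congrFun (congrFun e i) j) k
      simp only [cb] at this
      linear_combination this
    rcases subsingleton_or_nontrivial (Fin N) with hs | hs
    · refine ⟨lam, c, 0, hb, hb', fun i j l m => ?_, by simp⟩
      simp only [Pi.zero_apply, ite_self, add_zero]
      refine Finset.sum_congr rfl fun k _ => ?_
      rw [Subsingleton.elim i k, Subsingleton.elim j k, Subsingleton.elim l k]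
    · obtain ⟨ψ, hψ⟩ := psi_form hJ
      refine ⟨lam, c, ψ, hb, hb', fun i j l m => ?_, pentagon hψ⟩
      have := hψ i j l m
      simp only [AA, Finset.sum_sub_distrib] at this
      linear_combination this
  · rintro ⟨lam, c, ψ, hb, hb', hA, -⟩
    rw [← isNAP_congr (tr_br_shift b b' lam)]
    have e1 : (fun i j k => b i j k + if i = k then lam j else 0) = c := by
      ext i j k; rw [hb]; ring
    have e2 : (fun i j k => b' i j k - if i = k then lam j else 0) = cb c := by
      ext i j k; rw [hb', cb]; ring
    rw [e1, e2, isNAP_normal]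
    refine JJ_psi ψ fun i j l m => ?_
    simp only [AA, Finset.sum_sub_distrib]
    linear_combination hA i j l m

end Pool.Agent.H.MP_2bcfbf_mp
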