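import Mathlib

noncomputable section

namespace Pool.Agent.H.MP_2bcfbf_mp

/-- the free associative algebra on `N` generators -/
abbrev FA (N : ℕ) := FreeAlgebra ℂ (Fin N)

variable {N : ℕ}

/-- the generator `x_k` -/
def xx (k : Fin N) : FA N := FreeAlgebra.ι ℂ k

/-- the monomial spelled by a list of letters -/
def word (l : List (Fin N)) : FA N := (l.map xx).prod

/-- `a ∼ b`: the difference lies in the linear span of all commutators -/
def Sim (a b : FA N) : Prop := a - b ∈ Submodule.span ℂ {c : FA N | ∃ p q, c = p * q - q * p}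

/-- the gradient: the linear map sending a word to the sum, over the occurrences of `x_k`, of the
word rotated so that this occurrence comes first, with that letter deleted -/
def grad (k : Fin N) : FA N →ₗ[ℂ] FA N :=
  (FreeAlgebra.basisFreeMonoid ℂ (Fin N)).constr ℂ fun w =>
    ∑ p : Fin w.toList.length,
      if w.toList[p] = k then word (w.toList.drop (p + 1) ++ w.toList.take p) else 0

/-- `{f, g} = ∑ f_i Θ_ij(g_j)`, `Θ_ij = ∑_k (b_ij^k R_{x_k} + b'_ij^k L_{x_k})` -/
def br (b b' : Fin N → Fin N → Fin N → ℂ) (f g : FA N) : FA N :=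
  ∑ i, ∑ j, grad i f * ∑ k, (b i j k • (grad j g * xx k) + b' i j k • (xx k * grad j g))

/-- nonabelian Poisson bracket -/
def IsNAP (b b' : Fin N → Fin N → Fin N → ℂ) : Prop :=
  (∀ f g, Sim (br b b' f g + br b b' g f) 0) ∧
  ∀ f g h, Sim (br b b' f (br b b' g h) + br b b' g (br b b' h f) + br b b' h (br b b' f g)) 0

end Pool.Agent.H.MP_2bcfbf_mp
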